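import Pool.Agent.Lib.AS.SpecLG2
import Pool.Agent.Lib.AS.R3.Spec
import Pool.Agent.Lib.AS.AllM

/-!
# Lemma N: definitions

`PX X` is the group of order two on `X × ℝ⁴` which acts by `x ↦ -x` on the second factor.
For functions `u : ℝ⁴ → ℝ`, `m : ℝ⁴ → ℝ³`: `It u m` is the set of the `(t, x)` in `S² × S³` with
`u x ≤ ⟪t, m x⟫`, `Ht u m t` its fibre over `t`, `Xs u m` its image in `S³`.
-/

set_option autoImplicit false

namespace AS

namespace LN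

open R3

/-- `ℝ³` -/
abbrev E3 : Type := EuclideanSpace ℝ (Fin 3)

/-- the unit sphere of `ℝ³` -/
abbrev S2 : Set E3 := Metric.sphere (0 : E3) 1

theorem mem_S2 {x : E3} : x ∈ S2 ↔ ‖x‖ = 1 := by
  rw [mem_sphere_zero_iff_norm]

section group

variable (X : Type) [MetricSpace X]

/-- minus one in the second factor -/
def ngX : (X × E4) ≃ᵢ (X × E4) where
  toFun q := (q.1, -q.2)
  invFun q := (q.1, -q.2)
  left_inv q := by simp
  right_inv q := by simp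
  isometry_toFun := by
    refine Isometry.of_dist_eq fun q r => ?_
    rw [Prod.dist_eq, Prod.dist_eq, dist_neg_neg]

variable {X} in
theorem ngX_apply (q : X × E4) : ngX X q = (q.1, -q.2) := rfl

theorem ngX_mul_self : ngX X * ngX X = 1 := by
  ext q
  · rfl
  · show (-(-q.2)) _ = _
    rw [neg_neg]
    rfl

/-- the group `1, -1` on the second factor -/
def PX : Subgroup ((X × E4) ≃ᵢ (X × E4)) where
  carrier := {g | g = 1 ∨ g = ngX X}
  one_mem' := Or.inl rfl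
  mul_mem' := by
    rintro a b (rfl | rfl) (rfl | rfl)
    · exact Or.inl (one_mul _)
    · exact Or.inr (one_mul _)
    · exact Or.inr (mul_one _)
    · exact Or.inl (ngX_mul_self X)
  inv_mem' := by
    rintro a (rfl | rfl)
    · exact Or.inl inv_one
    · exact Or.inr (inv_eq_of_mul_eq_one_left (ngX_mul_self X))

variable {X}

theorem mem_PX {g : (X × E4) ≃ᵢ (X × E4)} : g ∈ PX X ↔ g = 1 ∨ g = ngX X := Iff.rfl

theorem ngX_mem : ngX X ∈ PX X := Or.inr rfl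

theorem ivS_PX {C : Set (X × E4)} : IvS (PX X) C ↔ ∀ q ∈ C, (q.1, -q.2) ∈ C := by
  constructor
  · intro h q hq
    exact h (ngX X) ngX_mem q hq
  · rintro h g (rfl | rfl) q hq
    · exact hq
    · exact h q hq

theorem fin_PX : (PX X : Set ((X × E4) ≃ᵢ (X × E4))).Finite := by
  have h : (PX X : Set ((X × E4) ≃ᵢ (X × E4))) = {1, ngX X} := by
    ext g
    rfl
  rw [h]
  exact Set.toFinite _

theorem fin_Pm : (Pm E4 : Set (E4 ≃ᵢ E4)).Finite := by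
  have h : (Pm E4 : Set (E4 ≃ᵢ E4)) = {1, ng E4} := by
    ext g
    rfl
  rw [h]
  exact Set.toFinite _

theorem fr_PX {C : Set (X × E4)} (h : ∀ q ∈ C, q.2 ∈ S) : Fr (PX X) C := by
  rintro g (rfl | rfl) q hq hgq
  · rfl
  · exact (ne_neg_of_mem (h q hq) (congrArg Prod.snd hgq).symm).elim

theorem eqv_fst : ∀ g ∈ PX X, ∃ g' ∈ (⊥ : Subgroup (X ≃ᵢ X)), ∀ q, (g q).1 = g' q.1 := by
  rintro g (rfl | rfl)
  · exact ⟨1, Subgroup.one_mem _, fun _ => rfl⟩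
  · exact ⟨1, Subgroup.one_mem _, fun _ => rfl⟩

theorem eqv_snd : ∀ g ∈ PX X, ∃ g' ∈ Pm E4, ∀ q, (g q).2 = g' q.2 := by
  rintro g (rfl | rfl)
  · exact ⟨1, Subgroup.one_mem _, fun _ => rfl⟩
  · exact ⟨ng E4, ng_mem, fun _ => rfl⟩

end group

/-! ### the sets -/

/-- the total space -/
def It (u : E4 → ℝ) (m : E4 → E3) : Set (E3 × E4) :=
  {q | q.1 ∈ S2 ∧ q.2 ∈ S ∧ u q.2 ≤ inner ℝ q.1 (m q.2)}

/-- the fibre over `t` -/
def Ht (u : E4 → ℝ) (m : E4 → E3) (t : E3) : Set E4 := {x | x ∈ S ∧ u x ≤ inner ℝ t (m x)}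

/-- the image in `S³` -/
def Xs (u : E4 → ℝ) (m : E4 → E3) : Set E4 := {x | x ∈ S ∧ u x ≤ ‖m x‖}

/-- continuous even functions on `S³` -/
structure Dat (u : E4 → ℝ) (m : E4 → E3) : Prop where
  uc : ContinuousOn u S
  mc : ContinuousOn m S
  ue : ∀ x, u (-x) = u x
  me : ∀ x, m (-x) = m x

/-- the direction of `m` -/
noncomputable def th (m : E4 → E3) (x : E4) : E3 := ‖m x‖⁻¹ • m x

theorem th_mem {m : E4 → E3} {x : E4} (h : m x ≠ 0) : th m x ∈ S2 := by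
  rw [mem_S2, th, norm_smul, norm_inv, norm_norm]
  exact inv_mul_cancel₀ (norm_ne_zero_iff.mpr h)

theorem inner_th {m : E4 → E3} {x : E4} (h : m x ≠ 0) : inner ℝ (th m x) (m x) = ‖m x‖ := by
  have h1 : ‖m x‖ ≠ 0 := norm_ne_zero_iff.mpr h
  rw [th, real_inner_smul_left, real_inner_self_eq_norm_sq]
  field_simp

/-- `(A, B)` is a cut of `X`: the complement of `X` in `S³` is the disjoint union of two nonempty open
symmetric sets -/
structure Cut (X A B : Set E4) : Prop where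
  csA : Cs (Pm E4) A
  csB : Cs (Pm E4) B
  un : A ∪ B = S
  int : A ∩ B = X
  neA : A ≠ S
  neB : B ≠ S

/-- `H²(X) = {0, s}`, and the restriction from `S` is zero -/
structure Sx (X : Set E4) (s : H (Pm E4) ∅ 2 X) : Prop where
  cs : Cs (Pm E4) X
  ne : s ≠ 0
  gen : ∀ y : H (Pm E4) ∅ 2 X, y = 0 ∨ y = s
  zero : ∀ (h : X ⊆ S) (y : H (Pm E4) ∅ 2 S), res h 2 y = 0

/-- the cohomology of the two-sphere: `s` is the generator of `H²` -/
structure Gen2 (s : H (⊥ : Subgroup (E3 ≃ᵢ E3)) ∅ 2 S2) : Prop where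
  ne : s ≠ 0
  gen : ∀ y : H (⊥ : Subgroup (E3 ≃ᵢ E3)) ∅ 2 S2, y = 0 ∨ y = s
  h1 : ∀ y : H (⊥ : Subgroup (E3 ≃ᵢ E3)) ∅ 1 S2, y = 0

/-- the function `(h + η) / ε` -/
noncomputable def sh (h : E4 → ℝ) (ε η : ℝ) (x : E4) : ℝ := (h x + η) / ε

/-- the hypotheses on `h`, `m` and the point `z` -/
structure HN (h : E4 → ℝ) (m : E4 → E3) (z : E4) : Prop where
  dat : Dat h m
  h0 : ∀ x ∈ S, 0 ≤ h x
  zS : z ∈ S
  hz : h z = 0
  mz : m z = 0
  inj : ∀ x ∈ S, h x = 0 → m x = 0 → x = z ∨ x = -z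
  neg : ∀ ε > 0, ∀ t ∈ S2, ∃ x ∈ S, h x < ε * inner ℝ t (m x)
  gen : ∀ ε > 0, ∀ η > 0, ∀ t ∈ S2, Gen (Ht (sh h ε η) m t)
  evn : ∃ d > 0, ∀ h0, ap 1 {x | x ∈ S ∧ h x ≤ d} h0 = 0
  con : ∀ c > 0, Gen {x | x ∈ S ∧ c ≤ h x}

end LN

end AS
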