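import Pool.Agent.Lib.MP_7cdc3e_gt.C.T4a.All
import Pool.Agent.Lib.MP_7cdc3e_gt.T0.All
import Pool.Agent.Lib.MP_7cdc3e_gt.C.EvTop
import Pool.Agent.Lib.MP_7cdc3e_gt.C.Unit

/-!
# MP_7cdc3e_gt, C32, T4a: Lemma N and the first blocking lemma

* `lemN`: if `z` is regular and `g` is in the span of `Nf ev z` then `{g > 0}` or `{g < 0}` is even;
* `blk1`: if `f ∈ Nf ev z` is not of rank one then `{h - s f > 0}` is even for large `s`.
-/

set_option autoImplicit false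

open HoloConj Pool.Agent.Lib.SingHom Module

namespace TightRP

namespace C3

open AS.LN (E3 S2 Ht Xs sh Dat HN mem_S2)
open AS.R3 (Gen)

/-- **Lemma N** -/
def LemNStmt : Prop := ∀ (F : Type) [Field F] (ev : W →ₗ[ℝ] (RP3 → ℝ)), CSys F ev →
  ∀ z, Reg ev z → ∀ g ∈ Submodule.span ℝ (Nf ev z), Even {x | 0 < ev g x} ∨ Even {x | ev g x < 0}

/-- **the first blocking lemma** -/
def Blk1Stmt : Prop := ∀ (F : Type) [Field F] (ev : W →ₗ[ℝ] (RP3 → ℝ)), CSys F ev →
  ∀ z, Reg ev z → ∀ f ∈ Nf ev z, f ≠ 0 → f ∉ T2set ev →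
  ∀ h ∈ Submodule.span ℝ (Nf ev z), ∃ s₀ : ℝ, ∀ s, s₀ ≤ s → Even {x | 0 < ev (h - s • f) x}

section

variable {ev : W →ₗ[ℝ] (RP3 → ℝ)}

/-- the vector function of a linear map `ℝ³ → W` -/
noncomputable def mv (ev : W →ₗ[ℝ] (RP3 → ℝ)) (e : E3 →ₗ[ℝ] W) (x : E4) : E3 :=
  WithLp.toLp 2 fun i => ev (e (EuclideanSpace.single i 1)) (pj x)

theorem inner_mv (e : E3 →ₗ[ℝ] W) (t : E3) (x : E4) :
    inner ℝ t (mv ev e x) = ev (e t) (pj x) := by
  have h1 : t = ∑ i, t i • (EuclideanSpace.single i (1 : ℝ) : E3) := by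
    have h := (EuclideanSpace.basisFun (Fin 3) ℝ).sum_repr t
    simpa using h.symm
  conv_rhs => rw [h1]
  rw [map_sum, ev_sum, PiLp.inner_apply]
  refine Finset.sum_congr rfl fun i _ => ?_
  rw [map_smul, ev_smul, real_inner_eq_re_inner, RCLike.inner_apply]
  show RCLike.re (ev (e (EuclideanSpace.single i 1)) (pj x) * t i) = _
  rw [RCLike.re_to_real, mul_comm]

theorem mv_cont (hc : ∀ g, Continuous (ev g)) (e : E3 →ₗ[ℝ] W) : ContinuousOn (mv ev e) Sp := by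
  have h1 : ContinuousOn (fun (x : E4) (i : Fin 3) =>
      ev (e (EuclideanSpace.single i (1 : ℝ))) (pj x)) Sp :=
    continuousOn_pi.mpr fun i => (hc _).comp_continuousOn pj_cont
  exact (PiLp.continuous_toLp 2 _).comp_continuousOn h1

theorem mv_neg (e : E3 →ₗ[ℝ] W) (x : E4) : mv ev e (-x) = mv ev e x := by
  unfold mv
  rw [pj_neg_all]

theorem dat_mv (hc : ∀ g, Continuous (ev g)) (e : E3 →ₗ[ℝ] W) (g : W) :
    Dat (fun x => ev g (pj x)) (mv ev e) :=
  ⟨(hc g).comp_continuousOn pj_cont, mv_cont hc e, fun x => by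
    show ev g (pj (-x)) = ev g (pj x)
    rw [pj_neg_all], mv_neg e⟩

/-- the sets `Ht` -/
theorem ht_eq {u : W} (hu : ev u = fun _ => 1) (e : E3 →ₗ[ℝ] W) (g : W) {ε : ℝ} (hε : 0 < ε)
    (η : ℝ) (t : E3) :
    Ht (sh (fun x => ev g (pj x)) ε η) (mv ev e) t =
      up {y | 0 ≤ ev (ε • e t - g - η • u) y} := by
  ext x
  have h1 : ev (ε • e t - g - η • u) (pj x) = ε * ev (e t) (pj x) - (ev g (pj x) + η) := by
    rw [ev_sub, ev_sub, ev_smul, ev_smul, hu]
    ring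
  have h2 : x ∈ up {y | 0 ≤ ev (ε • e t - g - η • u) y} ↔
      x ∈ Sp ∧ 0 ≤ ε * ev (e t) (pj x) - (ev g (pj x) + η) := by
    rw [← h1]
    exact Iff.rfl
  rw [h2]
  show (x ∈ Sp ∧ (ev g (pj x) + η) / ε ≤ inner ℝ t (mv ev e x)) ↔ _
  rw [inner_mv, div_le_iff₀ hε, sub_nonneg, mul_comm (ev (e t) (pj x)) ε]

theorem compl_le (g : W) : {y | 0 ≤ ev g y} = {y | 0 < ev (-g) y}ᶜ := by
  ext y
  simp only [Set.mem_setOf_eq, Set.mem_compl_iff]
  rw [ev_neg]
  constructor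
  · intro h1 h2
    linarith
  · intro h1
    by_contra h2
    exact h1 (by linarith)

end

/-- **Lemma N** -/
theorem lemN (hS : SepStmt) : LemNStmt := by
  intro F _ ev h z hz g hg
  by_contra hcon
  rw [not_or] at hcon
  obtain ⟨hE1, hE2⟩ := hcon
  obtain ⟨u, hu⟩ := h.one
  have hu1 : ∀ x, ev u x = 1 := fun x => by rw [hu]
  obtain ⟨h₀, hh₀, hunit⟩ := exists_unit ev z
  obtain ⟨C, hC, hgC⟩ := hunit g hg
  -- the order unit
  obtain ⟨h₁, hd₁⟩ : ∃ h₁ : W, h₁ = C • h₀ := ⟨_, rfl⟩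
  have hh₁ : h₁ ∈ Nf ev z := hd₁ ▸ Nf_smul hC.le hh₀
  have e1 : ∀ x, ev h₁ x = C * ev h₀ x := fun x => by rw [hd₁, ev_smul]
  have hbd : ∀ k ∈ Submodule.span ℝ (Nf ev z), ∀ x, ev h₁ x = 0 → ev k x = 0 := by
    intro k hk x hx
    obtain ⟨C', hC', h2⟩ := hunit k hk
    have h3 : ev h₀ x = 0 := by
      rw [e1] at hx
      exact (mul_eq_zero.mp hx).resolve_left hC.ne'
    have h4 := h2 x
    rw [h3, mul_zero] at h4
    exact abs_nonpos_iff.mp h4
  have hgh : ∀ x, ev g x ≤ ev h₁ x := fun x => by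
    rw [e1]
    exact (le_abs_self _).trans (hgC x)
  -- the complement
  obtain ⟨U, hUW, hKU, hKUt, hU3⟩ := exists_compl3 h hz
  have ei : E3 ≃ₗ[ℝ] U := LinearEquiv.ofFinrankEq _ _ (by
    rw [finrank_euclideanSpace_fin, hU3])
  let e : E3 →ₗ[ℝ] W := U.subtype ∘ₗ ei.toLinearMap
  have heU : ∀ t, e t ∈ U := fun t => (ei t).2
  have hez : ∀ t, ev (e t) z = 0 := fun t => hUW (heU t)
  have hsurj : ∀ k ∈ U, ∃ t, e t = k := fun k hk => ⟨ei.symm ⟨k, hk⟩, by
    show ((ei (ei.symm ⟨k, hk⟩) : U) : W) = k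
    rw [LinearEquiv.apply_symm_apply]⟩
  have hinj : ∀ t, e t = 0 → t = 0 := by
    intro t ht
    have h2 : ei t = 0 := Subtype.ext ht
    exact (LinearEquiv.map_eq_zero_iff ei).mp h2
  obtain ⟨w, hw, rfl⟩ := pj_surj z
  -- the hypotheses
  have hn : HN (fun x => ev h₁ (pj x)) (mv ev e) w := by
    refine ⟨dat_mv h.cont e h₁, fun x _ => hh₁.1 _, hw, hh₁.2, ?_, ?_, ?_, ?_, ?_, ?_⟩
    · have h2 : ∀ i, ev (e (EuclideanSpace.single i 1)) (pj w) = 0 := fun i => hez _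
      ext i
      exact h2 i
    · intro x hx hx0 hmx
      have h2 : pj x = pj w := by
        refine hS F ev h _ _ fun k => ?_
        have h3 : k - ev k (pj w) • u ∈ Wz ev (pj w) := by
          show ev (k - ev k (pj w) • u) (pj w) = 0
          rw [ev_sub, ev_smul, hu1, mul_one, sub_self]
        rw [← hKUt] at h3
        obtain ⟨k₁, hk₁, k₂, hk₂, h4⟩ := Submodule.mem_sup.mp h3
        have h5 : ev k₁ (pj x) = 0 := hbd k₁ hk₁ _ hx0
        have h6 : ev k₂ (pj x) = 0 := by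
          obtain ⟨t, rfl⟩ := hsurj k₂ hk₂
          rw [← inner_mv (ev := ev) e t x, hmx, inner_zero_right]
        have h7 := congrArg (fun q => ev q (pj x)) h4
        simp only [ev_add, ev_sub, ev_smul, hu1, h5, h6] at h7
        linarith
      exact (pj_eq_iff hx hw).mp h2
    · intro ε hε t ht
      by_contra hno
      have h2 : ∀ x ∈ Sp, ε * ev (e t) (pj x) ≤ ev h₁ (pj x) := by
        intro x hx
        by_contra h3
        refine hno ⟨x, hx, ?_⟩
        rw [inner_mv]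
        exact not_le.mp h3
      have h3 : h₁ - ε • e t ∈ Nf ev (pj w) := by
        refine ⟨fun y => ?_, ?_⟩
        · obtain ⟨x, hx, rfl⟩ := pj_surj y
          rw [ev_sub, ev_smul]
          exact sub_nonneg.mpr (h2 x hx)
        · rw [ev_sub, ev_smul, hez, mul_zero, sub_zero]
          exact hh₁.2
      have h4 : ε • e t ∈ Submodule.span ℝ (Nf ev (pj w)) := by
        have h5 : ε • e t = h₁ - (h₁ - ε • e t) := by abel
        rw [h5]
        exact Submodule.sub_mem _ (Submodule.subset_span hh₁) (Submodule.subset_span h3)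
      have h5 : ε • e t ∈ Submodule.span ℝ (Nf ev (pj w)) ⊓ U :=
        ⟨h4, U.smul_mem _ (heU t)⟩
      rw [hKU, Submodule.mem_bot] at h5
      have h6 : t = 0 := hinj t ((smul_eq_zero.mp h5).resolve_left hε.ne')
      rw [mem_S2, h6, norm_zero] at ht
      exact zero_ne_one ht
    · intro ε hε η _ t _
      rw [ht_eq hu e h₁ hε η t]
      exact T0.oxGen F ev h _
    · obtain ⟨g₀, hg₀, hg₀E⟩ := hz.1
      have h2 : Even {x | ev h₁ x ≤ 0} := by
        refine hg₀E.mono fun x hx => ?_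
        exact hbd g₀ (Submodule.subset_span hg₀) x (le_antisymm hx (hh₁.1 x))
      obtain ⟨d, hd, h3⟩ := even_le (h.cont h₁) h2
      refine ⟨d, hd, fun h0 => ?_⟩
      exact (T0.oxOne {x | ev h₁ x ≤ d} (isClosed_le (h.cont h₁) continuous_const)).mpr h3
    · intro c _
      have h2 : {x | x ∈ AS.R3.S ∧ c ≤ ev h₁ (pj x)} = up {y | 0 ≤ ev (h₁ - c • u) y} := by
        ext x
        have h3 : ev (h₁ - c • u) (pj x) = ev h₁ (pj x) - c := by
          rw [ev_sub, ev_smul, hu1, mul_one]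
        have h4 : x ∈ up {y | 0 ≤ ev (h₁ - c • u) y} ↔ x ∈ Sp ∧ 0 ≤ ev h₁ (pj x) - c := by
          rw [← h3]
          exact Iff.rfl
        rw [h4, sub_nonneg]
        exact Iff.rfl
      rw [h2]
      exact T0.oxGen F ev h _
  -- the odd sets
  obtain ⟨d₁, hd₁, o1⟩ := odd_ge T0.oxDic (h.cont g) (T0.oxPre F ev h g) hE1
  have hE2' : ¬ Even {x | 0 < ev (-g) x} := by
    intro h2
    refine hE2 (h2.mono fun x hx => ?_)
    show 0 < ev (-g) x
    rw [ev_neg]
    exact neg_pos.mpr hx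
  obtain ⟨d₂, hd₂, o2⟩ := odd_ge T0.oxDic (h.cont (-g)) (T0.oxPre F ev h (-g)) hE2'
  have hd : 0 < min d₁ d₂ := lt_min hd₁ hd₂
  refine AS.LN.lemN_ok (fun x => ev h₁ (pj x)) (fun x => ev g (pj x)) (mv ev e) w hn
    (dat_mv h.cont e g) (span_le_Wz _ hg) (fun x _ => hgh _) ?_ (min d₁ d₂) hd ?_ ?_ AS.LN.gen2
  · intro ε hε η _ t _
    rw [ht_eq hu e g hε η t]
    refine ⟨T0.oxGen F ev h _, ?_⟩
    rw [compl_le]
    exact T0.cmod_up T0.okCmU (isOpen_lt continuous_const (h.cont _)) (T0.oxPre F ev h _)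
  · intro h0 h2
    have h3 := (T0.oxOne {x | min d₁ d₂ ≤ ev g x}
      (isClosed_le continuous_const (h.cont g))).mp h2
    refine o1 (h3.mono fun x hx => ?_)
    exact (min_le_left d₁ d₂).trans hx
  · intro h0 h2
    have h3 := (T0.oxOne {x | ev g x ≤ -min d₁ d₂}
      (isClosed_le (h.cont g) continuous_const)).mp h2
    refine o2 (h3.mono fun x hx => ?_)
    have h4 : d₂ ≤ ev (-g) x := hx
    rw [ev_neg] at h4
    show ev g x ≤ -min d₁ d₂
    have h5 := min_le_right d₁ d₂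
    linarith

/-- **the first blocking lemma** -/
theorem blk1 (hN : LemNStmt) : Blk1Stmt := by
  intro F _ ev h z hz f hf hf0 hf2 k hk
  have hfE : ¬ Even {x | 0 < ev f x} := fun h2 => hf2 ⟨hf.1, hf0, ⟨z, hf.2⟩, h2⟩
  obtain ⟨d, hd, o1⟩ := odd_ge T0.oxDic (h.cont f) (T0.oxPre F ev h f) hfE
  have := cptRP3
  obtain ⟨M, hM⟩ := (isCompact_univ (X := RP3)).exists_bound_of_continuousOn
    (h.cont k).continuousOn
  have hM0 : 0 ≤ M := (norm_nonneg _).trans (hM z trivial)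
  refine ⟨(M + 1) / d, fun s hs => ?_⟩
  have hs' : M + 1 ≤ s * d := (div_le_iff₀ hd).mp hs
  have hs0 : 0 < s := lt_of_lt_of_le (div_pos (by linarith) hd) hs
  have hmem : k - s • f ∈ Submodule.span ℝ (Nf ev z) :=
    Submodule.sub_mem _ hk (Submodule.smul_mem _ _ (Submodule.subset_span hf))
  refine (hN F ev h z hz _ hmem).resolve_right fun h2 => o1 (h2.mono fun x hx => ?_)
  have h3 : d ≤ ev f x := hx
  have h4 := hM x trivial
  rw [Real.norm_eq_abs] at h4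
  have h5 := le_abs_self (ev k x)
  have h6 : s * d ≤ s * ev f x := mul_le_mul_of_nonneg_left h3 hs0.le
  show ev (k - s • f) x < 0
  rw [ev_sub, ev_smul]
  linarith

end C3

end TightRP
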