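import Pool.Agent.Lib.MP_7cdc3e_gt.C.T4a.Spec
import Pool.Agent.Lib.AS.HC

/-!
# Lemma N: closed caps of the two-sphere are acyclic
-/

set_option autoImplicit false

namespace AS

namespace LN

open R3

/-- the convex combination -/
private noncomputable def cpw (p : E3) (τ : ℝ) (t : E3) : E3 := (1 - τ) • t + τ • p

private theorem cpw_inner {v p t : E3} {c τ : ℝ} (hp : c ≤ inner ℝ p v) (ht : c ≤ inner ℝ t v)
    (h0 : 0 ≤ τ) (h1 : τ ≤ 1) : c ≤ inner ℝ (cpw p τ t) v := by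
  rw [cpw, inner_add_left, real_inner_smul_left, real_inner_smul_left]
  have h2 := mul_le_mul_of_nonneg_left hp h0
  have h3 := mul_le_mul_of_nonneg_left ht (sub_nonneg.mpr h1)
  linarith

private theorem cpw_norm {p t : E3} {τ : ℝ} (hp : ‖p‖ = 1) (ht : ‖t‖ = 1)
    (h0 : 0 ≤ τ) (h1 : τ ≤ 1) : ‖cpw p τ t‖ ≤ 1 := by
  rw [cpw]
  refine (norm_add_le _ _).trans ?_
  rw [norm_smul, norm_smul, hp, ht, Real.norm_of_nonneg h0, Real.norm_of_nonneg (sub_nonneg.mpr h1)]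
  linarith

private theorem cpw_ne {v p t : E3} {c τ : ℝ} (hc : 0 < c) (hp : c ≤ inner ℝ p v)
    (ht : c ≤ inner ℝ t v) (h0 : 0 ≤ τ) (h1 : τ ≤ 1) : cpw p τ t ≠ 0 := by
  intro h
  have h2 := cpw_inner hp ht h0 h1
  rw [h, inner_zero_left] at h2
  linarith

theorem capE (n1 : N1) (n2 : N2) : LN.CapE := by
  intro v c hc hcv
  have hv : ‖v‖ ≠ 0 := (lt_of_lt_of_le hc hcv).ne'
  have hpn : ‖‖v‖⁻¹ • v‖ = 1 := by
    rw [norm_smul, norm_inv, norm_norm]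
    exact inv_mul_cancel₀ hv
  have hpi : c ≤ inner ℝ (‖v‖⁻¹ • v) v := by
    rw [real_inner_smul_left, real_inner_self_eq_norm_sq]
    have : ‖v‖⁻¹ * ‖v‖ ^ 2 = ‖v‖ := by field_simp
    rw [this]
    exact hcv
  generalize ‖v‖⁻¹ • v = p at hpn hpi
  have hcl : IsClosed {t : E3 | c ≤ inner ℝ t v} :=
    isClosed_le continuous_const (continuous_id.inner continuous_const)
  have hcpt : IsCompact {t : E3 | t ∈ S2 ∧ c ≤ inner ℝ t v} :=
    (isCompact_sphere (0 : E3) 1).inter_right hcl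
  have hwc : Continuous (fun q : ℝ × E3 => cpw p q.1 q.2) := by
    unfold cpw
    fun_prop
  refine acy_of_contractible n1 n2 (p := p) ⟨mem_S2.mpr hpn, hpi⟩ hcpt
    (fun τ t => ‖cpw p τ t‖⁻¹ • cpw p τ t) ?_ ?_ ?_ ?_
  · refine ContinuousOn.smul (ContinuousOn.inv₀ hwc.norm.continuousOn ?_) hwc.continuousOn
    rintro ⟨τ, t⟩ ⟨hτ, ht⟩
    exact norm_ne_zero_iff.mpr (cpw_ne hc hpi ht.2 hτ.1 hτ.2)
  · intro τ hτ t ht
    have hne := norm_ne_zero_iff.mpr (cpw_ne hc hpi ht.2 hτ.1 hτ.2)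
    have hpos : 0 < ‖cpw p τ t‖ := lt_of_le_of_ne (norm_nonneg _) (Ne.symm hne)
    refine ⟨?_, ?_⟩
    · rw [mem_S2, norm_smul, norm_inv, norm_norm]
      exact inv_mul_cancel₀ hne
    · rw [real_inner_smul_left]
      have h1 := cpw_inner hpi ht.2 hτ.1 hτ.2
      have h2 := cpw_norm hpn (mem_S2.mp ht.1) hτ.1 hτ.2
      have h3 : 1 ≤ ‖cpw p τ t‖⁻¹ := (one_le_inv₀ hpos).mpr h2
      nlinarith
  · intro t ht
    have h1 : cpw p 0 t = t := by simp [cpw]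
    show ‖cpw p 0 t‖⁻¹ • cpw p 0 t = t
    rw [h1, mem_S2.mp ht.1, inv_one, one_smul]
  · intro t ht
    have h1 : cpw p 1 t = p := by simp [cpw]
    show ‖cpw p 1 t‖⁻¹ • cpw p 1 t = p
    rw [h1, hpn, inv_one, one_smul]

end LN

end AS
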