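import Pool.Agent.Lib.MP_7cdc3e_gt.C.T4a.Spec

/-!
# Lemma N: cuts
-/

set_option autoImplicit false

namespace AS

namespace LN

open R3

theorem Cut.swap {X A B : Set E4} (h : Cut X A B) : Cut X B A :=
  ⟨h.csB, h.csA, by rw [Set.union_comm]; exact h.un, by rw [Set.inter_comm]; exact h.int, h.neB,
    h.neA⟩

theorem Cut.mvs {X A B : Set E4} (h : Cut X A B) : MVs (Pm E4) ∅ A B X S :=
  ⟨OkD.empty _, h.csA.ok gp_Pm, h.csB.ok gp_Pm, h.int.symm, h.un.symm⟩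

theorem Cut.XA {X A B : Set E4} (h : Cut X A B) : X ⊆ A := h.int ▸ Set.inter_subset_left

theorem Cut.XB {X A B : Set E4} (h : Cut X A B) : X ⊆ B := h.int ▸ Set.inter_subset_right

/-- the top class is `del u` for every cut -/
theorem Cut.top (h2 : S_H3) {X A B : Set E4} (h : Cut X A B) (t : H (Pm E4) ∅ 3 S) :
    ∃ u : H (Pm E4) ∅ 2 X, t = del (Pm E4) ∅ A B X S 2 u :=
  (okM8 E4 (Pm E4) ∅ A B X S 2 h.mvs).1 t
    (h2 (Pm E4) A 3 gp_Pm h.csA (Or.inr ⟨le_rfl, h.neA⟩) _)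
    (h2 (Pm E4) B 3 gp_Pm h.csB (Or.inr ⟨le_rfl, h.neB⟩) _)

theorem Cut.del_ne (h2 : S_H3) (h3 : S_RP) {X A B : Set E4} {s : H (Pm E4) ∅ 2 X} (hs : Sx X s)
    (h : Cut X A B) : del (Pm E4) ∅ A B X S 2 s ≠ 0 := by
  obtain ⟨u, hu⟩ := h.top h2 (ap 3 S zero_notMem_S)
  rcases hs.gen u with h1 | h1
  · rw [h1, (okM6 E4 (Pm E4) ∅ A B X S 2 h.mvs).2.2] at hu
    exact (h3.1 hu).elim
  · rw [h1] at hu
    rw [← hu]
    exact h3.1

theorem Cut.resA (h2 : S_H3) (h3 : S_RP) {X A B : Set E4} {s : H (Pm E4) ∅ 2 X} (hs : Sx X s)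
    (h : Cut X A B) (hXA : X ⊆ A) (c : H (Pm E4) ∅ 2 A) : res hXA 2 c = 0 := by
  rcases hs.gen (res hXA 2 c) with h1 | h1
  · exact h1
  · have h4 := (okM9 E4 (Pm E4) ∅ A B X S 2 h.mvs).2.1 c
    have h5 : res h.mvs.IA 2 c = res hXA 2 c := rfl
    rw [h5, h1] at h4
    exact (Cut.del_ne h2 h3 hs h h4).elim

theorem cut_three (h2 : S_H3) (h3 : S_RP) {X A B : Set E4} {s : H (Pm E4) ∅ 2 X} (hs : Sx X s)
    (h : Cut X A B) {A₁ A₂ : Set E4} (c₁ : Cs (Pm E4) A₁) (c₂ : Cs (Pm E4) A₂) (hu : A₁ ∪ A₂ = S)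
    (hi : A₁ ∩ A₂ = A) : A₁ = A ∨ A₂ = A := by
  by_contra hcon
  rw [not_or] at hcon
  have n1 : A₁ ≠ S := by
    rintro rfl
    apply hcon.2
    rw [← hi]
    exact (Set.inter_eq_right.mpr c₂.sub).symm
  have n2 : A₂ ≠ S := by
    rintro rfl
    apply hcon.1
    rw [← hi]
    exact (Set.inter_eq_left.mpr c₁.sub).symm
  have hc : Cut A A₁ A₂ := ⟨c₁, c₂, hu, hi, n1, n2⟩
  obtain ⟨c, hc1⟩ := hc.top h2 (ap 3 S zero_notMem_S)
  have e1 : res h.mvs.IA 2 c = res h.mvs.IB 2 (0 : H (Pm E4) ∅ 2 B) := by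
    rw [map_zero]
    exact Cut.resA h2 h3 hs h _ c
  obtain ⟨b, hb1, hb2⟩ := okM10 E4 (Pm E4) ∅ A B X S 2 h.mvs c 0 e1
  have e2 : c = res hc.mvs.IA 2 (res hc.mvs.AU 2 b) := by
    rw [res_res hc.mvs.IA hc.mvs.AU h.mvs.AU, hb1]
  rw [e2, (okM9 E4 (Pm E4) ∅ A₁ A₂ A S 2 hc.mvs).2.1] at hc1
  exact h3.1 hc1

theorem cut_four (h2 : S_H3) (h3 : S_RP) (X X' : Set E4) (s : H (Pm E4) ∅ 2 X)
    (s' : H (Pm E4) ∅ 2 X') (A B A' B' : Set E4) (z : E4) (hs : Sx X s) (hs' : Sx X' s')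
    (hr : ∀ h : X' ⊆ X, res h 2 s ≠ 0) (hX : X' ⊆ X) (h : Cut X A B) (h' : Cut X' A' B')
    (hz : z ∈ S) (hzA : z ∉ A) (hzA' : z ∉ A') : A' ⊆ A ∧ B' ⊆ B := by
  have zB' : z ∈ B' := by
    have : z ∈ A' ∪ B' := by rw [h'.un]; exact hz
    exact this.resolve_left hzA'
  have hu1 : ∀ T : Set E4, Cs (Pm E4) T → (T ∪ A') ∪ (T ∪ B') = S := by
    intro T hT
    have : (T ∪ A') ∪ (T ∪ B') = T ∪ (A' ∪ B') := by
      ext x
      simp only [Set.mem_union]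
      tauto
    rw [this, h'.un]
    exact Set.union_eq_right.mpr hT.sub
  have hi1 : ∀ T : Set E4, X ⊆ T → (T ∪ A') ∩ (T ∪ B') = T := by
    intro T hT
    have : (T ∪ A') ∩ (T ∪ B') = T ∪ (A' ∩ B') := by
      ext x
      simp only [Set.mem_union, Set.mem_inter_iff]
      tauto
    rw [this, h'.int]
    exact Set.union_eq_left.mpr (hX.trans hT)
  have hAA : A' ⊆ A := by
    rcases cut_three h2 h3 hs h (h.csA.union h'.csA) (h.csA.union h'.csB) (hu1 A h.csA)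
      (hi1 A h.XA) with e | e
    · exact Set.union_eq_left.mp e
    · exact (hzA (Set.union_eq_left.mp e zB')).elim
  refine ⟨hAA, ?_⟩
  rcases cut_three h2 h3 hs h.swap (h.csB.union h'.csA) (h.csB.union h'.csB) (hu1 B h.csB)
      (hi1 B h.XB) with e | e
  · have hAB : A' ⊆ X := by
      rw [← h.int]
      exact Set.subset_inter hAA (Set.union_eq_left.mp e)
    have e1 := Cut.resA h2 h3 hs' h' h'.XA (res hAB 2 s)
    rw [res_res h'.XA hAB hX] at e1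
    exact (hr hX e1).elim
  · exact Set.union_eq_left.mp e

theorem cut_five (h2 : S_H3) (h3 : S_RP) (X Y A B : Set E4) (z z₀ : E4) (hXY : X ⊆ Y)
    (hY : Cs (Pm E4) Y) (hr : ∀ (h : X ⊆ Y) (y : H (Pm E4) ∅ 2 Y), res h 2 y = 0)
    (h : Cut X A B) (hz : z ∈ S) (hzA : z ∉ A) (hzY : z ∉ Y) (hz₀ : z₀ ∈ S) (hzB : z₀ ∉ B)
    (hzY' : z₀ ∉ Y) : False := by
  have hc : Cut Y (A ∪ Y) (B ∪ Y) := by
    refine ⟨h.csA.union hY, h.csB.union hY, ?_, ?_, ?_, ?_⟩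
    · have : (A ∪ Y) ∪ (B ∪ Y) = (A ∪ B) ∪ Y := by
        ext x
        simp only [Set.mem_union]
        tauto
      rw [this, h.un]
      exact Set.union_eq_left.mpr hY.sub
    · have : (A ∪ Y) ∩ (B ∪ Y) = (A ∩ B) ∪ Y := by
        ext x
        simp only [Set.mem_union, Set.mem_inter_iff]
        tauto
      rw [this, h.int]
      exact Set.union_eq_right.mpr hXY
    · intro e
      have : z ∈ A ∪ Y := by rw [e]; exact hz
      exact this.elim hzA hzY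
    · intro e
      have : z₀ ∈ B ∪ Y := by rw [e]; exact hz₀
      exact this.elim hzB hzY'
  obtain ⟨y, hy⟩ := hc.top h2 (ap 3 S zero_notMem_S)
  have e1 := okM11 E4 E4 (Pm E4) ∅ A B X S (Pm E4) ∅ (A ∪ Y) (B ∪ Y) Y S (fun x => x) 2 h.mvs
    hc.mvs (fun x hx => Or.inl hx) (fun x hx => Or.inl hx)
    (Adm.id' le_rfl (Set.Subset.refl S) fun _ _ hx => hx)
    (Adm.id' le_rfl hXY fun _ _ hx => hx) y
  have e2 : pull (fun x => x) (Adm.id' (Γ := Pm E4) (Γ' := Pm E4) (D := ∅) (D' := ∅) le_rfl hXY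
      fun _ _ hx => hx) 2 y = res hXY 2 y := rfl
  rw [e2, hr hXY y, (okM6 E4 (Pm E4) ∅ A B X S 2 h.mvs).2.2, ← hy] at e1
  have e3 : pull (fun x => x) (Adm.id' (Γ := Pm E4) (Γ' := Pm E4) (D := ∅) (D' := ∅) le_rfl
      (Set.Subset.refl S) fun _ _ hx => hx) 3 (ap 3 S zero_notMem_S) =
      res (Set.Subset.refl S) 3 (ap 3 S zero_notMem_S) := rfl
  rw [e3, res_self] at e1
  exact h3.1 e1

theorem cu (h1 : S_Rm) (h2 : S_H3) (h3 : S_RP) : LN.Cu := by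
  refine ⟨?_, fun X s A B hs h => Cut.resA h2 h3 hs h,
    fun X s A B A₁ A₂ hs h c₁ c₂ hu hi => cut_three h2 h3 hs h c₁ c₂ hu hi, cut_four h2 h3,
    cut_five h2 h3⟩
  intro X s hs
  by_contra hcon
  have hC : Cmod (Pm E4) X := by
    intro A B cA cB iA iB hu hi
    by_contra hne
    rw [not_or] at hne
    apply hcon
    have csA : Cs (Pm E4) A := ⟨cA, hu ▸ Set.subset_union_left, iA⟩
    have csB : Cs (Pm E4) B := ⟨cB, hu ▸ Set.subset_union_right, iB⟩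
    refine ⟨A, B, csA, csB, hu, hi, ?_, ?_⟩
    · rintro rfl
      apply hne.2
      rw [← hi]
      exact (Set.inter_eq_right.mpr csB.sub).symm
    · rintro rfl
      apply hne.1
      rw [← hi]
      exact (Set.inter_eq_left.mpr csA.sub).symm
  obtain ⟨x, hx⟩ := h1 (Pm E4) X gp_Pm hs.cs hC ⟨_, h3.1⟩ hs.cs.sub s
  rw [hs.zero] at hx
  exact hs.ne hx.symm

end LN

end AS
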