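import Pool.Agent.Lib.MP_7cdc3e_gt.C.T4a.Spec

/-!
# Lemma N: half-spaces (Hf)
-/

set_option autoImplicit false

namespace AS

namespace LN

open R3

namespace Hfx

theorem ap_zero {X : Set E4} (h0 : (0 : E4) ∉ X) : ap 0 X h0 = one (Pm E4) X := by
  unfold ap one
  rw [cl_eq_cl]
  refine Bnd_of_Z0 (Iv.add (apc_iv 0) (one_mem (Pm E4) X).1) ((Z0.zero _ _).congr fun l hl hX => ?_)
  obtain ⟨x, rfl⟩ := List.length_eq_one_iff.mp hl
  have h1 : (0 : E4) ∉ [x] := by
    intro h
    rw [List.mem_singleton] at h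
    exact h0 (h ▸ hX x (by simp))
  have h2 : apc 0 [x] = pr [x] := apc_pos rfl h1
  rw [Pi.add_apply, h2]
  change (0 : ZMod 2) = 1 + 1
  decide

theorem deg0 {X : Set E4} (h0 : (0 : E4) ∉ X) (hG : Gen X) (x : H (Pm E4) ∅ 0 X) :
    x = 0 ∨ x = one (Pm E4) X := by
  have h := hG h0 0 x
  rwa [ap_zero] at h

end Hfx

open Hfx in
theorem hf (h1 : S_Pow) (h2 : S_H3) (h3 : S_Odd) (h4 : S_Dic) (h5 : S_One) (n2 : N2) :
    LN.Hf := by
  constructor
  · intro X hX hne hG hap
    have h0 : (0 : E4) ∉ X := hX.zero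
    refine ⟨deg0 h0 hG, (n2 E4 (Pm E4) X).2 hne, fun n x => ?_⟩
    rcases hG h0 (n + 1) x with h | h
    · exact h
    · rw [h]
      exact h1 X h0 1 (n + 1) (by omega) (hap h0)
  · intro X K L hX hK hL hG hC hKX hLX haK haL h0
    have hK0 : (0 : E4) ∉ K := hK.zero
    have hL0 : (0 : E4) ∉ L := hL.zero
    have hKne : K ≠ ∅ := fun h => haK hK0 (H_empty h _)
    have hne : X.Nonempty := by
      by_contra h
      rw [Set.not_nonempty_iff_eq_empty] at h
      exact haL hL0 (H_empty (Set.subset_empty_iff.mp (h ▸ hLX)) _)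
    have hXS : X ≠ S := by
      intro h
      apply hKne
      rw [← hKX, h]
      exact (Set.inter_eq_left.mpr hK.sub).symm
    have hpre : IsPreconnected (S \ X) := by
      rcases h4 X hX hC with h | ⟨W, hW, hWX⟩
      · exact h
      · exfalso
        apply haK hK0
        rw [h5 K hK0 hK]
        refine ⟨{y | y ∈ K ∧ -y ∉ W}, fun y hy => hy.1, ?_, fun y hy => ?_⟩
        · exact hK.cl.inter (hW.isClosed_compl.preimage continuous_neg)
        · have hyX : y ∉ X := by
            intro h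
            have h6 : y ∈ K ∩ X := ⟨hy, h⟩
            rw [hKX] at h6
            exact h6
          have hny : -y ∈ K := ivS_Pm.mp hK.inv y hy
          have h6 := hWX y (hK.sub hy) hyX
          constructor
          · rintro ⟨-, h7⟩ ⟨-, h8⟩
            rw [neg_neg] at h8
            exact h8 (h6.mpr h7)
          · intro h7
            refine ⟨hy, h6.mp ?_⟩
            by_contra h8
            exact h7 ⟨hny, by rwa [neg_neg]⟩
    refine ⟨deg0 h0 hG, (n2 E4 (Pm E4) X).2 hne, fun x => hG h0 1 x, ?_, ?_⟩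
    · intro h
      apply haL hL0
      rw [← res_ap 1 h0 hLX hL0, h, map_zero]
    · intro n hn0 hn1 x
      by_cases hn2 : n = 2
      · subst hn2
        exact h3 X hX hXS hpre x
      · exact h2 (Pm E4) X n gp_Pm hX (Or.inr ⟨by omega, hXS⟩) x

end LN

end AS
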