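import Pool.Agent.Lib.MP_7cdc3e_gt.C.T4a.Bas

/-!
# Lemma N: separation
-/

set_option autoImplicit false

namespace AS

namespace LN

open R3

/-- admissible pairs -/
structure AdmP (h : E4 → ℝ) (m : E4 → E3) (M d ε η : ℝ) : Prop where
  e0 : 0 < ε
  eM : ε * M ≤ d
  n0 : 0 < η
  neg : ∀ t ∈ S2, ∃ x ∈ S, h x + η ≤ ε * inner ℝ t (m x)

section

variable {h : E4 → ℝ} {m : E4 → E3} {z : E4}

theorem HN.m_ne (hn : HN h m z) {ε η : ℝ} (hε : 0 < ε) (hη : 0 < η) {x : E4}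
    (hx : x ∈ Xs (sh h ε η) m) : m x ≠ 0 := by
  intro h1
  have h2 := hx.2
  rw [h1, norm_zero] at h2
  have h3 : 0 < sh h ε η x := div_pos (add_pos_of_nonneg_of_pos (hn.h0 x hx.1) hη) hε
  exact absurd h3 (not_lt.mpr h2)

theorem HN.m_ne' (hn : HN h m z) {ε η : ℝ} (hε : 0 < ε) (hη : 0 < η) {x : E4} (hm : m x = 0) :
    x ∉ Xs (sh h ε η) m := fun hx => hn.m_ne hε hη hx hm

theorem mem_Xs_sh {ε η : ℝ} (hε : 0 < ε) {x : E4} :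
    x ∈ Xs (sh h ε η) m ↔ x ∈ S ∧ h x + η ≤ ε * ‖m x‖ := by
  unfold Xs sh
  rw [Set.mem_ofPred_eq, div_le_iff₀ hε, mul_comm]

theorem HN.adm (hn : HN h m z) (h5 : LN.ThA) {ε η : ℝ} (hε : 0 < ε) (hη : 0 < η) :
    Adm (Pm E4) ∅ (Xs (sh h ε η) m) ⊥ ∅ S2 (th m) :=
  h5 h m _ hn.dat (cs_Xs (hn.dat.sh ε η)) fun _ hx => hn.m_ne hε hη hx

variable {M d : ℝ}

theorem HN.sx (hn : HN h m z) (h4 : LN.XH) (h5 : LN.ThA) (h6 : LN.Hf) (sp : S_Pow) (rp : S_RP)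
    {s : H (⊥ : Subgroup (E3 ≃ᵢ E3)) ∅ 2 S2} (hs : Gen2 s) (hM : ∀ x ∈ S, ‖m x‖ ≤ M)
    (hd : ∀ h0, ap 1 {x | x ∈ S ∧ h x ≤ d} h0 = 0) {ε η : ℝ} (ha : AdmP h m M d ε η) :
    Sx (Xs (sh h ε η) m) (pull (th m) (hn.adm h5 ha.e0 ha.n0) 2 s) := by
  have hcd : Cs (Pm E4) {x | x ∈ S ∧ h x ≤ d} :=
    cs_le hn.dat.uc continuousOn_const hn.dat.ue fun _ => rfl
  have hacy : ∀ t ∈ S2, Acy (Pm E4) (Ht (sh h ε η) m t) := by
    intro t ht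
    have hc := cs_Ht (hn.dat.sh ε η) t
    refine h6.1 _ hc ?_ (hn.gen ε ha.e0 η ha.n0 t ht) fun h0 => ?_
    · obtain ⟨x, hx, hx2⟩ := ha.neg t ht
      refine ⟨x, hx, ?_⟩
      unfold sh
      rw [div_le_iff₀ ha.e0, mul_comm]
      exact hx2
    · have hsub : Ht (sh h ε η) m t ⊆ {x | x ∈ S ∧ h x ≤ d} := by
        intro x hx
        refine ⟨hx.1, ?_⟩
        have h1 : h x + η ≤ inner ℝ t (m x) * ε := (div_le_iff₀ ha.e0).mp hx.2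
        have h2 : (inner ℝ t (m x) : ℝ) ≤ M := by
          refine (real_inner_le_norm t (m x)).trans ?_
          rw [mem_S2.mp ht, one_mul]
          exact hM x hx.1
        have h3 : inner ℝ t (m x) * ε ≤ M * ε := mul_le_mul_of_nonneg_right h2 ha.e0.le
        have h4 := ha.eM
        have h5 := ha.n0
        nlinarith
      rw [← res_ap 1 hcd.zero hsub hc.zero, hd, map_zero]
  have h7 := h4 (sh h ε η) m (hn.dat.sh ε η)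
    (fun x hx => div_pos (add_pos_of_nonneg_of_pos (hn.h0 x hx) ha.n0) ha.e0) hacy s hs
    (hn.adm h5 ha.e0 ha.n0)
  have hc := cs_Xs (hn.dat.sh ε η)
  refine ⟨hc, h7.1, h7.2, fun hX y => ?_⟩
  have hsub : Xs (sh h ε η) m ⊆ {x | x ∈ S ∧ h x ≤ d} := by
    intro x hx
    refine ⟨hx.1, ?_⟩
    have h1 := ((mem_Xs_sh ha.e0).mp hx).2
    have h3 : ε * ‖m x‖ ≤ ε * M := mul_le_mul_of_nonneg_left (hM x hx.1) ha.e0.le
    have h4 := ha.eM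
    have h5 := ha.n0
    linarith
  have ha1 : ap 1 (Xs (sh h ε η) m) hc.zero = 0 := by
    rw [← res_ap 1 hcd.zero hsub hc.zero, hd, map_zero]
  rcases rp.2 zero_notMem_S 2 y with h8 | h8
  · rw [h8, map_zero]
  · rw [h8, res_ap 2 zero_notMem_S hX hc.zero]
    exact sp _ hc.zero 1 2 (by norm_num) ha1

theorem HN.res_s (hn : HN h m z) (h5 : LN.ThA) (s : H (⊥ : Subgroup (E3 ≃ᵢ E3)) ∅ 2 S2)
    {A B : Set E4} (hA : Adm (Pm E4) ∅ A ⊥ ∅ S2 (th m)) (hB : Adm (Pm E4) ∅ B ⊥ ∅ S2 (th m))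
    (hAB : A ⊆ B) : res hAB 2 (pull (th m) hB 2 s) = pull (th m) hA 2 s := by
  rw [res_pull hB hA hAB (Set.Subset.refl S2), res_self]

end

theorem sep (h4 : LN.XH) (h5 : LN.ThA) (h6 : LN.Hf) (h7 : LN.Cu) (h8 : LN.Mu) (sp : S_Pow)
    (rp : S_RP) (n2 : N2) (hg : ∃ s : H (⊥ : Subgroup (E3 ≃ᵢ E3)) ∅ 2 S2, Gen2 s) : LN.Sep := by
  intro h m z hn z₀ hz₀ hhz₀
  obtain ⟨s, hs⟩ := hg
  obtain ⟨M, hM0, hM⟩ := exists_bound hn.dat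
  obtain ⟨d, hd0, hd⟩ := hn.evn
  have SX : ∀ {ε η : ℝ} (ha : AdmP h m M d ε η),
      Sx (Xs (sh h ε η) m) (pull (th m) (hn.adm h5 ha.e0 ha.n0) 2 s) :=
    fun ha => hn.sx h4 h5 h6 sp rp hs hM hd ha
  -- zeros of m
  have Z : ∀ {ε η : ℝ} (ha : AdmP h m M d ε η) {A B : Set E4}, Cut (Xs (sh h ε η) m) A B →
      ∃ p ∈ A, m p = 0 := by
    intro ε η ha A B hc
    by_contra hcon
    push Not at hcon
    have hA := h5 h m A hn.dat hc.csA hcon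
    have hXA : Xs (sh h ε η) m ⊆ A := by
      rw [← hc.int]
      exact Set.inter_subset_left
    have e1 := h7.2.1 _ _ A B (SX ha) hc hXA (pull (th m) hA 2 s)
    rw [hn.res_s h5 s (hn.adm h5 ha.e0 ha.n0) hA hXA] at e1
    exact (SX ha).ne e1
  -- normalized cuts
  have C : ∀ {ε η : ℝ} (_ : AdmP h m M d ε η), ∃ A B, Cut (Xs (sh h ε η) m) A B ∧ z ∉ A := by
    intro ε η ha
    obtain ⟨A, B, hc⟩ := h7.1 _ _ (SX ha)
    have hzX : z ∉ Xs (sh h ε η) m := hn.m_ne' ha.e0 ha.n0 hn.mz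
    by_cases hzA : z ∈ A
    · refine ⟨B, A, ⟨hc.csB, hc.csA, by rw [Set.union_comm]; exact hc.un,
        by rw [Set.inter_comm]; exact hc.int, hc.neB, hc.neA⟩, fun hzB => hzX ?_⟩
      rw [← hc.int]
      exact ⟨hzA, hzB⟩
    · exact ⟨A, B, hc, hzA⟩
  -- monotonicity
  have Mo : ∀ {ε η ε' η' : ℝ} (_ : AdmP h m M d ε η) (_ : AdmP h m M d ε' η') {A B A' B' : Set E4},
      Xs (sh h ε' η') m ⊆ Xs (sh h ε η) m → Cut (Xs (sh h ε η) m) A B →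
      Cut (Xs (sh h ε' η') m) A' B' → z ∉ A → z ∉ A' → A' ⊆ A ∧ B' ⊆ B := by
    intro ε η ε' η' ha ha' A B A' B' hX hc hc' hzA hzA'
    refine h7.2.2.2.1 _ _ _ _ A B A' B' z (SX ha) (SX ha') (fun hX' => ?_) hX hc hc' hn.zS hzA
      hzA'
    rw [hn.res_s h5 s (hn.adm h5 ha'.e0 ha'.n0) (hn.adm h5 ha.e0 ha.n0) hX']
    exact (SX ha').ne
  -- one admissible pair
  obtain ⟨μ₁, hμ₁, hμ₁'⟩ := h8 h m z hn (d / M) (div_pos hd0 hM0)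
  have ha₁ : AdmP h m M d (d / M) μ₁ :=
    ⟨div_pos hd0 hM0, by rw [div_mul_cancel₀ _ hM0.ne'], hμ₁, hμ₁'⟩
  set ε₁ := d / M with hε₁
  obtain ⟨A₁, B₁, hc₁, hzA₁⟩ := C ha₁
  obtain ⟨p, hpA₁, hmp⟩ := Z ha₁ hc₁
  have hpS : p ∈ S := hc₁.csA.sub hpA₁
  have hhp : 0 < h p := by
    refine lt_of_le_of_ne (hn.h0 p hpS) fun h0 => ?_
    rcases hn.inj p hpS h0.symm hmp with h1 | h1
    · exact hzA₁ (h1 ▸ hpA₁)
    · have h2 := (ivS_Pm.mp hc₁.csA.inv) p hpA₁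
      rw [h1, neg_neg] at h2
      exact hzA₁ h2
  -- p is on the far side for all smaller pairs
  have F : ∀ {ε' η' : ℝ} (_ : AdmP h m M d ε' η'), ε' ≤ ε₁ → ∀ {A' B' : Set E4},
      Cut (Xs (sh h ε' η') m) A' B' → z ∉ A' → p ∉ B' := by
    intro ε' η' ha' hle A' B' hc' hzA'
    have hr : 1 ≤ ε₁ / ε' := (one_le_div ha'.e0).mpr hle
    have hη₂ : 0 < min μ₁ (η' * (ε₁ / ε')) :=
      lt_min hμ₁ (mul_pos ha'.n0 (lt_of_lt_of_le one_pos hr))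
    set η₂ := min μ₁ (η' * (ε₁ / ε')) with hη₂'
    have ha₂ : AdmP h m M d ε₁ η₂ := by
      refine ⟨ha₁.e0, ha₁.eM, hη₂, fun t ht => ?_⟩
      obtain ⟨x, hx, hx2⟩ := hμ₁' t ht
      exact ⟨x, hx, by linarith [min_le_left μ₁ (η' * (ε₁ / ε'))]⟩
    obtain ⟨A₂, B₂, hc₂, hzA₂⟩ := C ha₂
    have hX₁ : Xs (sh h ε₁ μ₁) m ⊆ Xs (sh h ε₁ η₂) m := by
      intro x hx
      rw [mem_Xs_sh ha₁.e0] at hx ⊢
      exact ⟨hx.1, by linarith [hx.2, min_le_left μ₁ (η' * (ε₁ / ε'))]⟩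
    have hX' : Xs (sh h ε' η') m ⊆ Xs (sh h ε₁ η₂) m := by
      intro x hx
      rw [mem_Xs_sh ha'.e0] at hx
      rw [mem_Xs_sh ha₁.e0]
      refine ⟨hx.1, ?_⟩
      have e1 : (ε₁ / ε') * (h x + η') ≤ (ε₁ / ε') * (ε' * ‖m x‖) :=
        mul_le_mul_of_nonneg_left hx.2 (le_trans zero_le_one hr)
      have e2 : (ε₁ / ε') * (ε' * ‖m x‖) = ε₁ * ‖m x‖ := by
        rw [← mul_assoc, div_mul_cancel₀ _ ha'.e0.ne']
      have e3 : h x ≤ (ε₁ / ε') * h x := by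
        nlinarith [hn.h0 x hx.1]
      have e4 : η₂ ≤ (ε₁ / ε') * η' := by
        rw [mul_comm]
        exact min_le_right _ _
      nlinarith
    have m1 := Mo ha₂ ha₁ hX₁ hc₂ hc₁ hzA₂ hzA₁
    have m2 := Mo ha₂ ha' hX' hc₂ hc' hzA₂ hzA'
    intro hpB'
    apply hn.m_ne' ha₁.e0 hη₂ hmp
    rw [← hc₂.int]
    exact ⟨m1.1 hpA₁, m2.2 hpB'⟩
  -- conclusion
  have hc0 : 0 < min (h p) (h z₀) := lt_min hhp hhz₀
  refine ⟨min ε₁ (min (h p) (h z₀) / M), lt_min ha₁.e0 (div_pos hc0 hM0), fun ε hε hε2 => ?_⟩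
  obtain ⟨μ, hμ, hμ'⟩ := h8 h m z hn ε hε
  refine ⟨μ, hμ, fun η hη hη2 => ?_⟩
  have hεM : ε * M < min (h p) (h z₀) := by
    have := hε2.trans_le (min_le_right _ _)
    rwa [lt_div_iff₀ hM0] at this
  have hεε₁ : ε ≤ ε₁ := (hε2.trans_le (min_le_left _ _)).le
  have ha : AdmP h m M d ε η := by
    refine ⟨hε, ?_, hη, fun t ht => ?_⟩
    · refine (mul_le_mul_of_nonneg_right hεε₁ hM0.le).trans ha₁.eM
    · obtain ⟨x, hx, hx2⟩ := hμ' t ht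
      exact ⟨x, hx, by linarith⟩
  obtain ⟨A, B, hc, hzA⟩ := C ha
  refine ⟨A, B, hc, hzA, ?_⟩
  have hK : Cs (Pm E4) {x | x ∈ S ∧ min (h p) (h z₀) ≤ h x} :=
    cs_le continuousOn_const hn.dat.uc (fun _ => rfl) hn.dat.ue
  refine gen_conn n2 (hn.con _ hc0) hK hc.csA hc.csB ?_ ?_ (p := p) ⟨hpS, min_le_left _ _⟩
    (F ha hεε₁ hc hzA) ⟨hz₀, min_le_right _ _⟩
  · rw [hc.un]
    exact fun x hx => hx.1
  · intro x hx hxA hxB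
    have hxX : x ∈ Xs (sh h ε η) m := by
      rw [← hc.int]
      exact ⟨hxA, hxB⟩
    rw [mem_Xs_sh hε] at hxX
    have h1 : ε * ‖m x‖ ≤ ε * M := mul_le_mul_of_nonneg_left (hM x hx.1) hε.le
    have h2 := hx.2
    linarith [hxX.2]

end LN

end AS
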