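import Pool.Agent.Lib.MP_7cdc3e_gt.C.T4a.Bas
import Pool.Agent.Lib.MP_7cdc3e_gt.C.T4a.Sep

/-!
# Lemma N: assembly
-/

set_option autoImplicit false

namespace AS

namespace LN

open R3

theorem nonempty_of_ap {K : Set E4} (hK : Cs (Pm E4) K) (h : ∀ h0, ap 1 K h0 ≠ 0) :
    K.Nonempty := by
  by_contra hn
  rw [Set.not_nonempty_iff_eq_empty] at hn
  exact h hK.zero (H_empty hn _)

theorem lemN (hxg : LN.XG) (h6 : LN.Hf) (h7 : LN.Cu) (hsep : LN.Sep) : LN.LemN := by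
  intro h g m z hn hg hgz hgh hgen d hd hp hm hs
  obtain ⟨s, hs⟩ := hs
  have cp : Cs (Pm E4) {x | x ∈ S ∧ d ≤ g x} :=
    cs_le continuousOn_const hg.uc (fun _ => rfl) hg.ue
  have cm : Cs (Pm E4) {x | x ∈ S ∧ g x ≤ -d} :=
    cs_le hg.uc continuousOn_const hg.ue fun _ => rfl
  obtain ⟨z₀, hz₀, hgz₀⟩ := nonempty_of_ap cp hp
  obtain ⟨z₁, hz₁, hgz₁⟩ := nonempty_of_ap cm hm
  have hhz₀ : 0 < h z₀ := lt_of_lt_of_le hd (hgz₀.trans (hgh z₀ hz₀))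
  obtain ⟨M, hM0, hM⟩ := exists_bound hn.dat
  obtain ⟨ε₂, hε₂, h8⟩ := hsep h m z hn z₀ hz₀ hhz₀
  obtain ⟨ε, hε0, hε⟩ : ∃ ε, 0 < ε ∧ ε < min ε₂ (d / 2 / M) :=
    exists_between (lt_min hε₂ (div_pos (half_pos hd) hM0))
  obtain ⟨η₂, hη₂, h9⟩ := h8 ε hε0 (hε.trans_le (min_le_left _ _))
  obtain ⟨η, hη0, hη⟩ : ∃ η, 0 < η ∧ η < min η₂ (d / 2) :=
    exists_between (lt_min hη₂ (half_pos hd))
  have hηd : η < d / 2 := hη.trans_le (min_le_right _ _)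
  obtain ⟨A, B, hc, hzA, hzB⟩ := h9 η hη0 (hη.trans_le (min_le_left _ _))
  have hεM : ε * M < d / 2 := by
    have := hε.trans_le (min_le_right _ _)
    rwa [lt_div_iff₀ hM0] at this
  have hdat := hg.sh ε η
  have hb : ∀ t ∈ S2, ∀ x ∈ S, |(inner ℝ t (m x) : ℝ)| * ε < d / 2 := by
    intro t ht x hx
    have h2 : |(inner ℝ t (m x) : ℝ)| ≤ M := by
      refine (abs_real_inner_le_norm t (m x)).trans ?_
      rw [mem_S2.mp ht, one_mul]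
      exact hM x hx
    have h3 := mul_le_mul_of_nonneg_right h2 hε0.le
    linarith [mul_comm M ε]
  have hbas : ∀ t ∈ S2, ∀ h0, Bas2 (Pm E4) (Ht (sh g ε η) m t) 1 (ap 1 (Ht (sh g ε η) m t) h0) := by
    intro t ht
    have hG := hgen ε hε0 η hη0 t ht
    refine h6.2 _ _ _ (cs_Ht hdat t) cp cm hG.1 hG.2 ?_ ?_ hp hm
    · ext x
      constructor
      · rintro ⟨⟨hx, hgx⟩, _, hx2⟩
        have h1 : g x + η ≤ inner ℝ t (m x) * ε := (div_le_iff₀ hε0).mp hx2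
        have h2 := hb t ht x hx
        have h3 : inner ℝ t (m x) * ε ≤ |(inner ℝ t (m x) : ℝ)| * ε :=
          mul_le_mul_of_nonneg_right (le_abs_self _) hε0.le
        exact (by linarith : ¬ d ≤ g x) hgx
      · exact fun h => h.elim
    · rintro x ⟨hx, hgx⟩
      refine ⟨hx, (div_le_iff₀ hε0).mpr ?_⟩
      have h2 := hb t ht x hx
      have h3 : -|(inner ℝ t (m x) : ℝ)| * ε ≤ inner ℝ t (m x) * ε :=
        mul_le_mul_of_nonneg_right (neg_abs_le _) hε0.le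
      linarith
  have hsub : Xs (sh h ε η) m ⊆ Xs (sh g ε η) m := by
    rintro x ⟨hx, hx2⟩
    refine ⟨hx, le_trans ?_ hx2⟩
    unfold sh
    exact div_le_div_of_nonneg_right (by linarith [hgh x hx]) hε0.le
  have hz1 : sh g ε η z₁ ≤ -‖m z₁‖ := by
    unfold sh
    rw [div_le_iff₀ hε0]
    have h1 : ‖m z₁‖ * ε ≤ M * ε := mul_le_mul_of_nonneg_right (hM z₁ hz₁) hε0.le
    nlinarith
  have hres : ∀ (h' : Xs (sh h ε η) m ⊆ Xs (sh g ε η) m) (y : H (Pm E4) ∅ 2 (Xs (sh g ε η) m)),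
      res h' 2 y = 0 := fun h' y =>
    hxg (sh g ε η) m hdat hbas s hs z₁ hz₁ hz1 _ (cs_Xs (hn.dat.sh ε η))
      (fun x hx => hn.m_ne hε0 hη0 hx) h' y
  refine h7.2.2.2.2 _ _ A B z z₀ hsub (cs_Xs hdat) hres hc hn.zS hzA ?_ hz₀ hzB ?_
  · intro hz
    have h1 := (mem_Xs_sh hε0).mp hz
    rw [hgz, hn.mz, norm_zero, mul_zero] at h1
    linarith [h1.2]
  · intro hz
    have h1 := (mem_Xs_sh hε0).mp hz
    have h2 : ε * ‖m z₀‖ ≤ ε * M := mul_le_mul_of_nonneg_left (hM z₀ hz₀) hε0.le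
    linarith [h1.2]

end LN

end AS
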