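import Pool.Agent.Lib.MP_7cdc3e_gt.C.T4a.Spec

/-!
# Lemma N, Mu (helper18): uniform negativity
-/

set_option autoImplicit false

namespace AS

namespace LN

open R3

theorem mu : LN.Mu := by
  intro h m z hN ε hε
  have hc : IsCompact S2 := isCompact_sphere _ _
  refine hc.induction_on (p := fun K => ∃ μ > 0, ∀ t ∈ K, ∃ x ∈ S, h x + μ ≤ ε * inner ℝ t (m x))
    ⟨1, one_pos, fun t ht => absurd ht (Set.notMem_empty t)⟩ ?_ ?_ ?_
  · rintro K K' hK ⟨μ, hμ, h1⟩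
    exact ⟨μ, hμ, fun t ht => h1 t (hK ht)⟩
  · rintro K K' ⟨μ, hμ, h1⟩ ⟨μ', hμ', h2⟩
    refine ⟨min μ μ', lt_min hμ hμ', ?_⟩
    rintro t (ht | ht)
    · obtain ⟨x, hx, hx'⟩ := h1 t ht
      exact ⟨x, hx, by have := min_le_left μ μ'; linarith⟩
    · obtain ⟨x, hx, hx'⟩ := h2 t ht
      exact ⟨x, hx, by have := min_le_right μ μ'; linarith⟩
  · intro t₀ ht₀
    obtain ⟨x₀, hx₀, hlt⟩ := hN.neg ε hε t₀ ht₀
    have hcont : Continuous (fun t : E3 => ε * inner ℝ t (m x₀)) := by fun_prop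
    have hev : ∀ᶠ t in nhds t₀, h x₀ + (ε * inner ℝ t₀ (m x₀) - h x₀) / 2 <
        ε * inner ℝ t (m x₀) := by
      refine hcont.continuousAt.eventually_const_lt ?_
      linarith
    refine ⟨{t | h x₀ + (ε * inner ℝ t₀ (m x₀) - h x₀) / 2 < ε * inner ℝ t (m x₀)},
      mem_nhdsWithin_of_mem_nhds hev, (ε * inner ℝ t₀ (m x₀) - h x₀) / 2, by linarith, ?_⟩
    intro t ht
    exact ⟨x₀, hx₀, le_of_lt ht⟩

end LN

end AS
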