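import Pool.Agent.Lib.MP_7cdc3e_gt.C.T4a.Spec

/-!
# C32, T4a, Sl: slices
-/

set_option autoImplicit false

namespace AS

namespace LN

open R3

section transport

variable {X Y : Type} [MetricSpace X] [MetricSpace Y] {Γ : Subgroup (X ≃ᵢ X)} {C : Set X}
  {Γ' : Subgroup (Y ≃ᵢ Y)} {C' : Set Y}

private theorem sl_one {f : X → Y} (hf : Adm Γ ∅ C Γ' ∅ C' f) :
    pull f hf 0 (one Γ' C') = one Γ C := by
  unfold one
  rw [pull_cl]

private theorem sl_id {k : X → X} (hk : Adm Γ ∅ C Γ ∅ C k) (h : ∀ x ∈ C, k x = x) {n : ℕ}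
    (x : H Γ ∅ n C) : pull k hk n x = x := by
  obtain ⟨φ, hφ, rfl⟩ := cl_surj x
  rw [pull_cl, cl_eq_cl]
  refine Bnd_of_Z0 (Iv.add (hk.iv hφ.1) hφ.1) ((Z0.zero _ _).congr fun l _ hl => ?_)
  rw [Pi.add_apply]
  have h1 : l.map k = l := by
    have h2 : l.map k = l.map (fun x => x) := List.map_congr_left fun x hx => h x (hl x hx)
    rw [h2, List.map_id']
  rw [h1, z2_add_self]
  rfl

private theorem sl_inv {f : X → Y} {g : Y → X} (hf : Adm Γ ∅ C Γ' ∅ C' f)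
    (hg : Adm Γ' ∅ C' Γ ∅ C g) (h : ∀ x ∈ C, g (f x) = x) {n : ℕ} (x : H Γ ∅ n C) :
    pull f hf n (pull g hg n x) = x := by
  rw [pull_pull]
  exact sl_id _ h x

private theorem sl_acy {f : X → Y} {g : Y → X} (hf : Adm Γ ∅ C Γ' ∅ C' f)
    (hg : Adm Γ' ∅ C' Γ ∅ C g) (h : ∀ x ∈ C, g (f x) = x) (hA : Acy Γ' C') : Acy Γ C := by
  obtain ⟨h1, h2, h3⟩ := hA
  refine ⟨fun x => ?_, fun h0 => h2 ?_, fun n x => ?_⟩
  · rw [← sl_inv hf hg h x]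
    rcases h1 (pull g hg 0 x) with h4 | h4
    · left
      rw [h4, map_zero]
    · right
      rw [h4, sl_one]
  · rw [← sl_one hg, h0, map_zero]
  · rw [← sl_inv hf hg h x, h3 n (pull g hg _ x), map_zero]

private theorem sl_bas {f : X → Y} {g : Y → X} (hf : Adm Γ ∅ C Γ' ∅ C' f)
    (hg : Adm Γ' ∅ C' Γ ∅ C g) (h : ∀ x ∈ C, g (f x) = x) (h' : ∀ y ∈ C', f (g y) = y) {d : ℕ}
    {b : H Γ' ∅ d C'} (hA : Bas2 Γ' C' d b) : Bas2 Γ C d (pull f hf d b) := by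
  obtain ⟨h1, h2, h3, h4, h5⟩ := hA
  refine ⟨fun x => ?_, fun h0 => h2 ?_, fun x => ?_, fun h0 => h4 ?_, fun n hn hn' x => ?_⟩
  · rw [← sl_inv hf hg h x]
    rcases h1 (pull g hg 0 x) with h6 | h6
    · left
      rw [h6, map_zero]
    · right
      rw [h6, sl_one]
  · rw [← sl_one hg, h0, map_zero]
  · rw [← sl_inv hf hg h x]
    rcases h3 (pull g hg d x) with h6 | h6
    · left
      rw [h6, map_zero]
    · right
      rw [h6]
  · rw [← sl_inv hg hf h' b, h0, map_zero]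
  · rw [← sl_inv hf hg h x, h5 n hn hn' (pull g hg _ x), map_zero]

end transport

private theorem sl_snd (t : E3) (F : Set E4) :
    Adm (PX E3) ∅ ({t} ×ˢ F) (Pm E4) ∅ F Prod.snd :=
  ⟨fun _ hx => hx.2, fun _ _ hx => hx.elim,
    fun ε hε => ⟨ε, hε, fun _ _ _ _ h => lt_of_le_of_lt (le_max_right _ _) h⟩, eqv_snd⟩

private theorem sl_mk (t : E3) (F : Set E4) :
    Adm (Pm E4) ∅ F (PX E3) ∅ ({t} ×ˢ F) (fun x => (t, x)) := by
  refine ⟨fun x hx => ⟨rfl, hx⟩, fun _ _ hx => hx.elim, fun ε hε => ⟨ε, hε, ?_⟩, ?_⟩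
  · intro x _ y _ h
    rw [Prod.dist_eq]
    exact max_lt (by rw [dist_self]; exact hε) h
  · rintro g (rfl | rfl)
    · exact ⟨1, Subgroup.one_mem _, fun _ => rfl⟩
    · exact ⟨ngX E3, ngX_mem, fun _ => rfl⟩

private theorem sl_fst (p : E4) (F : Set E3) :
    Adm (⊥ : Subgroup ((E3 × E4) ≃ᵢ (E3 × E4))) ∅ (F ×ˢ {p}) (⊥ : Subgroup (E3 ≃ᵢ E3)) ∅ F
      Prod.fst := by
  refine ⟨fun _ hx => hx.1, fun _ _ hx => hx.elim,
    fun ε hε => ⟨ε, hε, fun _ _ _ _ h => lt_of_le_of_lt (le_max_left _ _) h⟩, ?_⟩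
  intro g hg
  rw [Subgroup.mem_bot] at hg
  subst hg
  exact ⟨1, Subgroup.one_mem _, fun _ => rfl⟩

private theorem sl_mk' (p : E4) (F : Set E3) :
    Adm (⊥ : Subgroup (E3 ≃ᵢ E3)) ∅ F (⊥ : Subgroup ((E3 × E4) ≃ᵢ (E3 × E4))) ∅ (F ×ˢ {p})
      (fun t => (t, p)) := by
  refine ⟨fun x hx => ⟨hx, rfl⟩, fun _ _ hx => hx.elim, fun ε hε => ⟨ε, hε, ?_⟩, ?_⟩
  · intro x _ y _ h
    rw [Prod.dist_eq]
    exact max_lt h (by rw [dist_self]; exact hε)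
  · intro g hg
    rw [Subgroup.mem_bot] at hg
    subst hg
    exact ⟨1, Subgroup.one_mem _, fun _ => rfl⟩

theorem sl : Sl := by
  refine ⟨fun t F _ hA => ?_, fun t F b _ hB h => ?_, fun p F hA => ?_⟩
  · refine sl_acy (sl_snd t F) (sl_mk t F) ?_ hA
    rintro ⟨t', x⟩ ⟨ht, _⟩
    have ht' : t' = t := ht
    rw [ht']
  · refine sl_bas h (sl_mk t F) ?_ (fun _ _ => rfl) hB
    rintro ⟨t', x⟩ ⟨ht, _⟩
    have ht' : t' = t := ht
    rw [ht']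
  · refine sl_acy (sl_fst p F) (sl_mk' p F) ?_ hA
    rintro ⟨t, x⟩ ⟨_, hx⟩
    have hx' : x = p := hx
    rw [hx']

end LN

end AS
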