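import Pool.Agent.Lib.MP_7cdc3e_gt.C.T4a.Spec

set_option autoImplicit false

namespace AS

namespace LN

open R3

theorem thA : LN.ThA := by
  intro u m A hd hA hm
  have hcomp : IsCompact A := (isCompact_sphere (0 : E4) 1).of_isClosed_subset hA.cl hA.sub
  have hcont : ContinuousOn (th m) A := by
    have h1 : ContinuousOn m A := hd.mc.mono hA.sub
    exact (h1.norm.inv₀ fun x hx => norm_ne_zero_iff.mpr (hm x hx)).smul h1
  refine ⟨fun x hx => th_mem (hm x hx), fun x _ hx => hx.elim, ?_, ?_⟩
  · have h2 := hcomp.uniformContinuousOn_of_continuous hcont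
    rw [Metric.uniformContinuousOn_iff] at h2
    exact h2
  · rintro g (rfl | rfl)
    · exact ⟨1, Subgroup.one_mem _, fun _ => rfl⟩
    · refine ⟨1, Subgroup.one_mem _, fun x => ?_⟩
      show th m (-x) = th m x
      unfold th
      rw [hd.me x]

end LN

end AS
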