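import Pool.Agent.Lib.MP_7cdc3e_gt.C.T4a.Spec

/-!
# Lemma N: a restriction map which is zero (XG)
-/

set_option autoImplicit false

namespace AS

namespace LN

open R3

namespace XGx

variable {u : E4 → ℝ} {m : E4 → E3}

theorem inner_le {t : E3} (ht : t ∈ S2) (v : E3) : |inner ℝ t v| ≤ ‖v‖ := by
  have h := abs_real_inner_le_norm t v
  rwa [mem_S2.mp ht, one_mul] at h

theorem ht_sub {t : E3} (ht : t ∈ S2) : Ht u m t ⊆ Xs u m := fun x hx =>
  ⟨hx.1, hx.2.trans ((le_abs_self _).trans (inner_le ht (m x)))⟩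

theorem ht_inv (hd : Dat u m) (t : E3) : IvS (Pm E4) (Ht u m t) := by
  rw [ivS_Pm]
  intro x hx
  refine ⟨neg_mem_S hx.1, ?_⟩
  rw [hd.ue, hd.me]
  exact hx.2

theorem adm_snd {A : Set (E3 × E4)} {B : Set E4} (h : ∀ q ∈ A, q.2 ∈ B) :
    Adm (PX E3) ∅ A (Pm E4) ∅ B Prod.snd := by
  refine ⟨h, fun _ _ hx => hx.elim, fun ε hε => ⟨ε, hε, fun x _ y _ hxy => ?_⟩, eqv_snd⟩
  rw [Prod.dist_eq] at hxy
  exact (le_max_right _ _).trans_lt hxy

theorem adm_fst {A : Set (E3 × E4)} {B : Set E3} (h : ∀ q ∈ A, q.1 ∈ B) :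
    Adm (PX E3) ∅ A ⊥ ∅ B Prod.fst := by
  refine ⟨h, fun _ _ hx => hx.elim, fun ε hε => ⟨ε, hε, fun x _ y _ hxy => ?_⟩, eqv_fst⟩
  rw [Prod.dist_eq] at hxy
  exact (le_max_left _ _).trans_lt hxy

/-- the fibres of the first projection -/
theorem ov_fst {t : E3} (ht : t ∈ S2) : ov (It u m) Prod.fst {t} = {t} ×ˢ Ht u m t := by
  ext q
  constructor
  · rintro ⟨⟨-, h2, h3⟩, h4⟩
    have h5 : q.1 = t := h4
    exact ⟨h5, h2, by rw [← h5]; exact h3⟩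
  · rintro ⟨h1, h2, h3⟩
    have h5 : q.1 = t := h1
    exact ⟨⟨h5 ▸ ht, h2, by rw [h5]; exact h3⟩, h1⟩

theorem bas (h2 : LN.Sl) (hd : Dat u m) {t : E3} (ht : t ∈ S2)
    (hb : ∀ h0, Bas2 (Pm E4) (Ht u m t) 1 (ap 1 (Ht u m t) h0)) {O : Set (E3 × E4)}
    (hO : O = {t} ×ˢ Ht u m t) (hOI : O ⊆ It u m)
    (aS : Adm (PX E3) ∅ (It u m) (Pm E4) ∅ (Xs u m) Prod.snd) (hY : (0 : E4) ∉ Xs u m) :
    Bas2 (PX E3) O 1 (res hOI 1 (pull Prod.snd aS 1 (ap 1 (Xs u m) hY))) := by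
  subst hO
  have h0 : (0 : E4) ∉ Ht u m t := fun h => hY (ht_sub ht h)
  have ha : Adm (PX E3) ∅ ({t} ×ˢ Ht u m t) (Pm E4) ∅ (Ht u m t) Prod.snd :=
    adm_snd fun q hq => hq.2
  have h3 := h2.2.1 t (Ht u m t) (ap 1 (Ht u m t) h0) (ht_inv hd t) (hb h0) ha
  rw [res_pull aS ha hOI (ht_sub ht), res_ap 1 hY (ht_sub ht) h0]
  exact h3

/-- the section over the set where `m ≠ 0` -/
theorem adm_sec (hd : Dat u m) {X' : Set E4} (hX : Cs (Pm E4) X') (hm : ∀ x ∈ X', m x ≠ 0)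
    (hXY : X' ⊆ Xs u m) : Adm (Pm E4) ∅ X' (PX E3) ∅ (It u m) (fun x => (th m x, x)) := by
  refine ⟨fun x hx => ⟨th_mem (hm x hx), hX.sub hx, ?_⟩, fun _ _ hx => hx.elim, ?_, ?_⟩
  · change u x ≤ inner ℝ (th m x) (m x)
    rw [inner_th (hm x hx)]
    exact (hXY hx).2
  · have hmc : ContinuousOn m X' := hd.mc.mono hX.sub
    have h1 : ContinuousOn (fun x => (th m x, x)) X' := by
      refine ContinuousOn.prodMk ?_ continuousOn_id
      unfold th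
      refine ContinuousOn.smul (ContinuousOn.inv₀ hmc.norm fun x hx => ?_) hmc
      exact norm_ne_zero_iff.mpr (hm x hx)
    have h2 := hX.cpt.uniformContinuousOn_of_continuous h1
    rw [Metric.uniformContinuousOn_iff] at h2
    exact h2
  · rintro g (rfl | rfl)
    · exact ⟨1, Subgroup.one_mem _, fun _ => rfl⟩
    · refine ⟨ngX E3, ngX_mem, fun x => ?_⟩
      rw [ngX_apply]
      have h3 : th m (-x) = th m x := by
        unfold th
        rw [hd.me]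
      change (th m (-x), -x) = (th m x, -x)
      rw [h3]

end XGx

open XGx in
theorem xg (h1 : LN.Fi) (h2 : LN.Sl) (h3 : W2a) (n1 : N1) : LN.XG := by
  intro u m hd hb s hs z₁ hz₁ huz X' hX' hm hX y
  obtain ⟨hcs, f1, f2, -⟩ := h1 u m hd
  have aS : Adm (PX E3) ∅ (It u m) (Pm E4) ∅ (Xs u m) Prod.snd := adm_snd f2.maps
  have aF : Adm (PX E3) ∅ (It u m) ⊥ ∅ S2 Prod.fst := adm_fst f1.maps
  have hY : (0 : E4) ∉ Xs u m := hcs.zero
  -- every class of degree two is a pullback from the sphere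
  obtain ⟨z, hz⟩ : ∃ z : H (⊥ : Subgroup (E3 ≃ᵢ E3)) ∅ 2 S2,
      pull Prod.snd aS 2 y = pull Prod.fst aF 2 z := by
    have h4 := (h3 (E3 × E4) E3 (PX E3) ∅ (It u m) ∅ S2 Prod.fst f1 1
      (pull Prod.snd aS 1 (ap 1 (Xs u m) hY)) le_rfl
      (fun t ht _ => bas h2 hd ht (hb t ht) (ov_fst ht) _ aS hY) S2 (isCompact_sphere _ _)
      (Set.Subset.refl _)).2 1
    obtain ⟨⟨z, z'⟩, hz⟩ := h4.2 (res (ov_sub (It u m) Prod.fst S2) 2 (pull Prod.snd aS 2 y))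
    have hz' : z' = 0 := hs.h1 z'
    have hz1 : pull Prod.fst (f1.adm S2) 2 z =
        res (ov_sub (It u m) Prod.fst S2) 2 (pull Prod.snd aS 2 y) := by
      rw [← hz, hz']
      change _ = pull Prod.fst (f1.adm S2) (1 + 1) z +
        cupH ∅ (1 + 1) (pull Prod.fst (f1.adm S2) 1 0) _
      rw [map_zero, cupH_zero_left (p := 1) (q := 1) (n := 1 + 1) rfl
        (Or.inl Set.inter_subset_right), add_zero]
    have hI : It u m ⊆ ov (It u m) Prod.fst S2 := fun q hq => ⟨hq, f1.maps q hq⟩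
    refine ⟨z, ?_⟩
    have h5 := congrArg (res hI 2) hz1
    rw [res_res hI (ov_sub (It u m) Prod.fst S2) (Set.Subset.refl _), res_self,
      res_pull (f1.adm S2) aF hI (Set.Subset.refl _), res_self] at h5
    exact h5.symm
  -- this class is zero
  have hjm : ∀ t ∈ S2, (t, z₁) ∈ It u m := fun t ht =>
    ⟨ht, hz₁, huz.trans (neg_le_of_abs_le (inner_le ht (m z₁)))⟩
  have aj : Adm (⊥ : Subgroup (E3 ≃ᵢ E3)) ∅ S2 (PX E3) ∅ (It u m) (fun t => (t, z₁)) := by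
    refine ⟨hjm, fun _ _ hx => hx.elim, fun ε hε => ⟨ε, hε, fun x _ y _ hxy => ?_⟩, ?_⟩
    · rw [Prod.dist_eq]
      change max (dist x y) (dist z₁ z₁) < ε
      rw [dist_self]
      exact max_lt hxy hε
    · intro g hg
      rw [Subgroup.mem_bot.mp hg]
      exact ⟨1, Subgroup.one_mem _, fun _ => rfl⟩
  have hz1Y : z₁ ∈ Xs u m := ⟨hz₁, huz.trans ((neg_nonpos.mpr (norm_nonneg _)).trans (norm_nonneg _))⟩
  have aid : Adm (⊥ : Subgroup (E4 ≃ᵢ E4)) ∅ {z₁} (Pm E4) ∅ (Xs u m) (fun x => x) :=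
    Adm.id' bot_le (Set.singleton_subset_iff.mpr hz1Y) fun _ _ hx => hx.elim
  have ac : Adm (⊥ : Subgroup (E3 ≃ᵢ E3)) ∅ S2 (⊥ : Subgroup (E4 ≃ᵢ E4)) ∅ {z₁}
      (fun _ => z₁) := by
    refine ⟨fun _ _ => rfl, fun _ _ hx => hx.elim, fun ε hε => ⟨1, one_pos, fun x _ y _ _ => ?_⟩,
      fun g _ => ⟨1, Subgroup.one_mem _, fun _ => rfl⟩⟩
    rw [dist_self]
    exact hε
  have hz0 : z = 0 := by
    have e1 : pull (fun t => (t, z₁)) aj 2 (pull Prod.fst aF 2 z) = z := by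
      rw [pull_pull aF aj]
      exact res_self (Set.Subset.refl _) z
    have e2 : pull (fun t => (t, z₁)) aj 2 (pull Prod.snd aS 2 y) =
        pull (fun _ => z₁) ac 2 (pull (fun x => x) aid 2 y) := by
      rw [pull_pull aS aj, pull_pull aid ac]
    have e3 : pull (fun x => x) aid 2 y = 0 := n1 E4 ⊥ ∅ {z₁} 1 (Set.finite_singleton _) _
    rw [← e1, ← hz, e2, e3, map_zero]
  have hw : pull Prod.snd aS 2 y = 0 := by rw [hz, hz0, map_zero]
  -- the section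
  have aσ := adm_sec hd hX' hm hX
  have e4 : pull (fun x => (th m x, x)) aσ 2 (pull Prod.snd aS 2 y) = res hX 2 y := by
    rw [pull_pull aS aσ]
    rfl
  rw [← e4, hw, map_zero]

end LN

end AS
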