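import Pool.Agent.Lib.MP_7cdc3e_gt.C.T4a.Spec

/-!
# Lemma N, XH: the second cohomology of `Xs u m` (helper20)
-/

set_option autoImplicit false

namespace AS

namespace LN

open R3

/-- the fibre over `t` -/
private theorem xh_fst {u : E4 → ℝ} {m : E4 → E3} {t : E3} (ht : t ∈ S2) :
    ov (It u m) Prod.fst {t} = {t} ×ˢ Ht u m t := by
  ext q
  constructor
  · rintro ⟨⟨_, h2, h3⟩, h4⟩
    have h5 : q.1 = t := h4
    refine ⟨h4, h2, ?_⟩
    rw [← h5]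
    exact h3
  · rintro ⟨h4, h2, h3⟩
    have h5 : q.1 = t := h4
    refine ⟨⟨?_, h2, ?_⟩, h4⟩
    · rw [h5]
      exact ht
    · rw [h5]
      exact h3

/-- the fibre over `p` -/
private theorem xh_snd {u : E4 → ℝ} {m : E4 → E3} {p : E4} (hp : p ∈ S) :
    ov (It u m) Prod.snd {p} = {t | t ∈ S2 ∧ u p ≤ inner ℝ t (m p)} ×ˢ {p} := by
  ext q
  constructor
  · rintro ⟨⟨h1, _, h3⟩, h4⟩
    have h5 : q.2 = p := h4
    refine ⟨⟨h1, ?_⟩, h4⟩
    rw [← h5]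
    exact h3
  · rintro ⟨⟨h1, h3⟩, h4⟩
    have h5 : q.2 = p := h4
    refine ⟨⟨h1, ?_, ?_⟩, h4⟩
    · rw [h5]
      exact hp
    · rw [h5]
      exact h3

/-- the section `x ↦ (th m x, x)` -/
private theorem xh_sec {u : E4 → ℝ} {m : E4 → E3} (hme : ∀ x, m (-x) = m x) {A : Set E4}
    (hA : A ⊆ Xs u m) (hm : ∀ x ∈ A, m x ≠ 0) (h : Adm (Pm E4) ∅ A ⊥ ∅ S2 (th m)) :
    Adm (Pm E4) ∅ A (PX E3) ∅ (It u m) (fun x => (th m x, x)) := by
  refine ⟨fun x hx => ⟨th_mem (hm x hx), (hA hx).1, ?_⟩, fun _ _ hx => hx.elim, ?_, ?_⟩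
  · show u x ≤ inner ℝ (th m x) (m x)
    rw [inner_th (hm x hx)]
    exact (hA hx).2
  · intro ε hε
    obtain ⟨δ, hδ, h1⟩ := h.uc ε hε
    refine ⟨min δ ε, lt_min hδ hε, fun x hx y hy hxy => ?_⟩
    rw [Prod.dist_eq]
    exact max_lt (h1 x hx y hy (hxy.trans_le (min_le_left _ _))) (hxy.trans_le (min_le_right _ _))
  · rintro g (rfl | rfl)
    · exact ⟨1, Subgroup.one_mem _, fun _ => rfl⟩
    · refine ⟨ngX E3, ngX_mem, fun x => ?_⟩
      show (th m (-x), -x) = (th m x, -x)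
      rw [th, th, hme]

/-- **XH.** -/
theorem xH (hFi : Fi) (hSl : Sl) (hCap : CapE) (hW1a : W1a) (hW1b : W1b) : XH := by
  intro u m hD hu hac s hs h
  obtain ⟨hcs, hf1, hf2, hq⟩ := hFi u m hD
  have hm : ∀ x ∈ Xs u m, m x ≠ 0 := by
    intro x hx h0
    have h1 := hx.2
    rw [h0, norm_zero] at h1
    exact absurd h1 (not_le.mpr (hu x hx.1))
  -- the first projection
  have e1 : It u m = ov (It u m) Prod.fst S2 := by
    ext q
    exact ⟨fun hq => ⟨hq, hq.1⟩, fun hq => hq.1⟩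
  have b1 : ∀ A, A = ov (It u m) Prod.fst S2 → ∀ hA : Adm (PX E3) ∅ A ⊥ ∅ S2 Prod.fst,
      Function.Bijective (pull Prod.fst hA 2) := by
    rintro _ rfl hA
    refine hW1a (E3 × E4) E3 (PX E3) ∅ (It u m) ∅ S2 Prod.fst hf1 (fun t ht _ => ?_) S2
      (isCompact_sphere _ _) (Set.Subset.refl _) 2
    rw [xh_fst ht]
    have hiv : IvS (Pm E4) (Ht u m t) := by
      rw [ivS_Pm]
      rintro x ⟨hx, hx'⟩
      refine ⟨neg_mem_S hx, ?_⟩
      rw [hD.ue, hD.me]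
      exact hx'
    exact hSl.1 t (Ht u m t) hiv (hac t ht)
  -- the second projection
  have e2 : It u m = ov (It u m) Prod.snd (Xs u m) := by
    ext q
    refine ⟨fun hq => ⟨hq, hf2.maps q hq⟩, fun hq => hq.1⟩
  have b2 : ∀ A, A = ov (It u m) Prod.snd (Xs u m) →
      ∀ hA : Adm (PX E3) ∅ A (Pm E4) ∅ (Xs u m) Prod.snd,
      Function.Bijective (pull Prod.snd hA 2) := by
    rintro _ rfl hA
    refine hW1b (E3 × E4) E4 (PX E3) ⊥ ∅ (It u m) (Pm E4) ∅ (Xs u m) Prod.snd hf2 hq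
      (fun p hp _ => ?_) (Xs u m) ⟨hcs.cpt, hcs.inv, Set.Subset.refl _⟩ 2
    rw [xh_snd hp.1]
    exact hSl.2.2 p _ (hCap (m p) (u p) (hu p hp.1) hp.2)
  have a1 : Adm (PX E3) ∅ (It u m) ⊥ ∅ S2 Prod.fst := by
    have h1 := hf1.adm S2
    rwa [← e1] at h1
  have a2 : Adm (PX E3) ∅ (It u m) (Pm E4) ∅ (Xs u m) Prod.snd := by
    have h1 := hf2.adm (Xs u m)
    rwa [← e2] at h1
  have c1 := b1 _ e1 a1
  have c2 := b2 _ e2 a2
  have hσ := xh_sec (u := u) hD.me (Set.Subset.refl (Xs u m)) hm h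
  have hid : ∀ y : H (Pm E4) ∅ 2 (Xs u m), pull _ hσ 2 (pull Prod.snd a2 2 y) = y := by
    intro y
    rw [pull_pull a2 hσ]
    exact res_self (Set.Subset.refl _) y
  have hth : ∀ y' : H (⊥ : Subgroup (E3 ≃ᵢ E3)) ∅ 2 S2,
      pull _ hσ 2 (pull Prod.fst a1 2 y') = pull (th m) h 2 y' := by
    intro y'
    rw [pull_pull a1 hσ]
  constructor
  · intro h0
    obtain ⟨y, hy⟩ := c2.2 (pull Prod.fst a1 2 s)
    have h1 : y = 0 := by
      rw [← hid y, hy, hth, h0]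
    rw [h1, map_zero] at hy
    exact hs.ne (c1.1 (hy.symm.trans (map_zero _).symm))
  · intro y
    obtain ⟨y', hy'⟩ := c1.2 (pull Prod.snd a2 2 y)
    have h1 : y = pull (th m) h 2 y' := by
      rw [← hth, hy', hid]
    rcases hs.gen y' with h2 | h2
    · left
      rw [h1, h2, map_zero]
    · right
      rw [h1, h2]

end LN

end AS
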