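import Pool.Agent.Lib.MP_7cdc3e_gt.C.T4a.Fi
import Pool.Agent.Lib.MP_7cdc3e_gt.C.T4a.Sl
import Pool.Agent.Lib.MP_7cdc3e_gt.C.T4a.CapE
import Pool.Agent.Lib.MP_7cdc3e_gt.C.T4a.XH
import Pool.Agent.Lib.MP_7cdc3e_gt.C.T4a.ThA
import Pool.Agent.Lib.MP_7cdc3e_gt.C.T4a.XG
import Pool.Agent.Lib.MP_7cdc3e_gt.C.T4a.Hf
import Pool.Agent.Lib.MP_7cdc3e_gt.C.T4a.Cu
import Pool.Agent.Lib.MP_7cdc3e_gt.C.T4a.Mu
import Pool.Agent.Lib.MP_7cdc3e_gt.C.T4a.Sep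
import Pool.Agent.Lib.MP_7cdc3e_gt.C.T4a.LemN
import Pool.Agent.Lib.AS.AllL
import Pool.Agent.Lib.AS.Bd
import Pool.Agent.Lib.AS.R3.All

/-!
# Lemma N: assembly

`lemN_ok` is Lemma N without hypotheses.
-/

set_option autoImplicit false

namespace AS

namespace LN

open R3

/-- the generator of the second cohomology of the two-sphere -/
theorem gen2 : ∃ s : H (⊥ : Subgroup (E3 ≃ᵢ E3)) ∅ 2 S2, Gen2 s := by
  obtain ⟨s, h⟩ := sph_bas (V := E3) 1 (by simp)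
  exact ⟨s, h.2.2.2.1, h.2.2.1, h.2.2.2.2 1 (by norm_num) (by norm_num)⟩

/-- **Lemma N**, in the language of the library -/
theorem lemN_all (h1 : S_Rm) (h2 : S_H3) (h3 : S_Odd) : LN.LemN := by
  have c1 : LN.CapE := capE okN1 okN2
  have c2 : LN.XH := xH fi sl c1 okW1a okW1b
  have c3 : LN.Hf := hf rPow h2 h3 dic (rOne okM1) okN2
  have c4 : LN.Cu := cu h1 h2 pRP
  exact lemN (xg fi sl okW2a okN1) c3 c4
    (sep c2 thA c3 c4 mu rPow pRP okN2 gen2)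

/-- **Lemma N** without hypotheses -/
theorem lemN_ok : LN.LemN := lemN_all okRm okH3 okOdd

end LN

end AS
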