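import Pool.Agent.Lib.MP_7cdc3e_gt.C.T4a.Spec

/-!
# Lemma N: basic lemmas
-/

set_option autoImplicit false

namespace AS

namespace LN

open R3

/-- `a⁰ = 1` -/
theorem ap_zero_eq {C : Set E4} (h0 : (0 : E4) ∉ C) : ap 0 C h0 = one (Pm E4) C := by
  unfold ap one
  rw [cl_eq_cl]
  refine Bnd_of_Z0 (Iv.add (apc_cyc 0 h0 ∅ (Set.inter_empty C)).1 (one_mem (Pm E4) C).1)
    ⟨1, one_pos, fun l hl hs => ?_⟩
  obtain ⟨x, rfl⟩ := List.length_eq_one_iff.mp hl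
  rw [Pi.add_apply, apc_pos rfl]
  · show (1 : ZMod 2) + 1 = 0
    decide
  · intro h
    rw [List.mem_singleton] at h
    exact h0 (h ▸ hs.1 x List.mem_cons_self)

/-- closed half-spaces -/
theorem cs_le {f g : E4 → ℝ} (hf : ContinuousOn f S) (hg : ContinuousOn g S)
    (fe : ∀ x, f (-x) = f x) (ge : ∀ x, g (-x) = g x) :
    Cs (Pm E4) {x | x ∈ S ∧ f x ≤ g x} := by
  refine ⟨?_, fun x hx => hx.1, ivS_of gp_Pm fun x hx => ⟨neg_mem_S hx.1, ?_⟩⟩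
  · have h1 : IsClosed (S ∩ (fun x => g x - f x) ⁻¹' Set.Ici 0) :=
      (hg.sub hf).preimage_isClosed_of_isClosed isClosed_S isClosed_Ici
    have h2 : {x | x ∈ S ∧ f x ≤ g x} = S ∩ (fun x => g x - f x) ⁻¹' Set.Ici 0 := by
      ext x
      simp only [Set.mem_inter_iff, Set.mem_preimage, Set.mem_Ici, sub_nonneg]
      rfl
    rw [h2]
    exact h1
  · rw [fe, ge]
    exact hx.2

theorem Dat.inner_cont {u : E4 → ℝ} {m : E4 → E3} (h : Dat u m) (t : E3) :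
    ContinuousOn (fun x => (inner ℝ t (m x) : ℝ)) S :=
  continuousOn_const.inner h.mc

theorem cs_Ht {u : E4 → ℝ} {m : E4 → E3} (h : Dat u m) (t : E3) : Cs (Pm E4) (Ht u m t) :=
  cs_le h.uc (h.inner_cont t) h.ue fun x => by rw [h.me]

theorem cs_Xs {u : E4 → ℝ} {m : E4 → E3} (h : Dat u m) : Cs (Pm E4) (Xs u m) :=
  cs_le h.uc h.mc.norm h.ue fun x => by rw [h.me]

theorem Dat.sh {h : E4 → ℝ} {m : E4 → E3} (H : Dat h m) (ε η : ℝ) : Dat (sh h ε η) m :=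
  ⟨(H.uc.add continuousOn_const).div_const ε, H.mc, fun x => by unfold LN.sh; rw [H.ue], H.me⟩

theorem exists_bound {u : E4 → ℝ} {m : E4 → E3} (H : Dat u m) :
    ∃ M > 0, ∀ x ∈ S, ‖m x‖ ≤ M := by
  obtain ⟨C, hC⟩ := isCompact_S.exists_bound_of_continuousOn H.mc
  exact ⟨max C 1, lt_max_of_lt_right one_pos, fun x hx => (hC x hx).trans (le_max_left _ _)⟩

/-- connectedness modulo `±` in terms of `H⁰` -/
theorem gen_conn (n2 : N2) {K A B : Set E4} (hK : Gen K) (cK : Cs (Pm E4) K) (cA : Cs (Pm E4) A)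
    (cB : Cs (Pm E4) B) (hu : K ⊆ A ∪ B) (hd : ∀ x ∈ K, x ∈ A → x ∈ B → False) {p q : E4}
    (hp : p ∈ K) (hpB : p ∉ B) (hq : q ∈ K) : q ∉ B := by
  intro hqB
  have hpA : p ∈ A := (hu hp).resolve_right hpB
  have mv : MVs (Pm E4) ∅ (K ∩ A) (K ∩ B) ((K ∩ A) ∩ (K ∩ B)) K :=
    ⟨OkD.empty _, (cK.inter cA).ok gp_Pm, (cK.inter cB).ok gp_Pm, rfl, by
      rw [← Set.inter_union_distrib_left]
      exact (Set.inter_eq_left.mpr hu).symm⟩
  have he : (K ∩ A) ∩ (K ∩ B) = ∅ := by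
    ext x
    constructor
    · rintro ⟨h1, h2⟩
      exact hd x h1.1 h1.2 h2.2
    · exact fun h => h.elim
  have e1 : res mv.IA 0 (ap 0 (K ∩ A) (cK.inter cA).zero) =
      res mv.IB 0 (0 : H (Pm E4) ∅ 0 (K ∩ B)) := by
    rw [H_empty he (res mv.IA 0 _), H_empty he (res mv.IB 0 _)]
  obtain ⟨z, hz1, hz2⟩ := okM10 E4 (Pm E4) ∅ _ _ _ _ 0 mv _ _ e1
  rcases hK cK.zero 0 z with h | h
  · rw [h, map_zero, ap_zero_eq] at hz1
    exact (n2 E4 (Pm E4) (K ∩ A)).2 ⟨p, hp, hpA⟩ hz1.symm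
  · rw [h, res_ap 0 cK.zero mv.BU (cK.inter cB).zero, ap_zero_eq] at hz2
    exact (n2 E4 (Pm E4) (K ∩ B)).2 ⟨q, hq, hqB⟩ hz2

end LN

end AS
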