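import Pool.Agent.Lib.MP_7cdc3e_gt.C.T4a.Spec

/-!
# The two projections of the total space
-/

set_option autoImplicit false

namespace AS

namespace LN

open R3

private theorem fi_cpt {u : E4 → ℝ} {m : E4 → E3} (d : Dat u m) : IsCompact (It u m) := by
  have h1 : IsCompact (S2 ×ˢ S : Set (E3 × E4)) := (isCompact_sphere _ _).prod isCompact_S
  have h2 : ContinuousOn (fun q : E3 × E4 => u q.2) (S2 ×ˢ S) :=
    d.uc.comp continuousOn_snd fun q hq => hq.2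
  have h3 : ContinuousOn (fun q : E3 × E4 => (inner ℝ q.1 (m q.2) : ℝ)) (S2 ×ˢ S) :=
    continuousOn_fst.inner (d.mc.comp continuousOn_snd fun q hq => hq.2)
  have h4 : IsClosed {q | q ∈ (S2 ×ˢ S : Set (E3 × E4)) ∧ u q.2 ≤ inner ℝ q.1 (m q.2)} :=
    h1.isClosed.isClosed_le h2 h3
  refine h1.of_isClosed_subset (s := S2 ×ˢ S) ?_ fun q hq => ⟨hq.1, hq.2.1⟩
  have h5 : It u m = {q | q ∈ (S2 ×ˢ S : Set (E3 × E4)) ∧ u q.2 ≤ inner ℝ q.1 (m q.2)} := by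
    ext q
    exact ⟨fun h => ⟨⟨h.1, h.2.1⟩, h.2.2⟩, fun h => ⟨h.1.1, h.1.2, h.2⟩⟩
  rw [h5]
  exact h4

private theorem fi_ok {u : E4 → ℝ} {m : E4 → E3} (d : Dat u m) : Ok (PX E3) (It u m) := by
  refine ⟨fi_cpt d, ivS_PX.mpr fun q hq => ⟨hq.1, neg_mem_S hq.2.1, ?_⟩, fr_PX fun q hq => hq.2.1⟩
  change u (-q.2) ≤ inner ℝ q.1 (m (-q.2))
  rw [d.ue, d.me]
  exact hq.2.2

private theorem fi_cs {u : E4 → ℝ} {m : E4 → E3} (d : Dat u m) : Cs (Pm E4) (Xs u m) := by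
  refine ⟨isClosed_S.isClosed_le d.uc d.mc.norm, fun x hx => hx.1,
    ivS_Pm.mpr fun x hx => ⟨neg_mem_S hx.1, ?_⟩⟩
  rw [d.ue, d.me]
  exact hx.2

/-- **Fi.** The two projections of the total space. -/
theorem fi : Fi := by
  intro u m d
  refine ⟨fi_cs d, ?_, ?_, ?_⟩
  · refine ⟨⟨fi_ok d, OkD.empty _, continuousOn_fst, eqv_fst⟩, ?_,
      ⟨isCompact_sphere _ _, IvS.bot _, Fr.bot _⟩, OkD.empty _, fun q hq => hq.1,
      fun q _ => iff_of_false (Set.notMem_empty _) (Set.notMem_empty _)⟩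
    rw [Subgroup.coe_bot]
    exact Set.finite_singleton _
  · refine ⟨⟨fi_ok d, OkD.empty _, continuousOn_snd, eqv_snd⟩, fin_Pm, (fi_cs d).ok gp_Pm,
      OkD.empty _, fun q hq => ⟨hq.2.1, ?_⟩,
      fun q _ => iff_of_false (Set.notMem_empty _) (Set.notMem_empty _)⟩
    have h1 : inner ℝ q.1 (m q.2) ≤ ‖q.1‖ * ‖m q.2‖ := real_inner_le_norm _ _
    rw [mem_S2.mp hq.1, one_mul] at h1
    exact hq.2.2.trans h1
  · refine ⟨fin_PX, bot_le, ?_, ?_, ?_⟩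
    · intro g hg x
      rw [Subgroup.mem_bot.mp hg]
      rfl
    · rintro g (rfl | rfl) hg x hx hgx
      · exact hg (Subgroup.one_mem _)
      · exact ne_neg_of_mem hx.2.1 hgx.symm
    · rintro g' (rfl | rfl)
      · exact ⟨1, Subgroup.one_mem _, fun _ => rfl⟩
      · exact ⟨ngX E3, ngX_mem, fun _ => rfl⟩

end LN

end AS
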