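import Pool.Agent.Lib.MP_7cdc3e_gt.C.T4a.Defs

/-!
# Lemma N: statements

Every statement `LN.…` is a `Prop`; the file `C/T4a/<Name>.lean` proves `theorem <name> : LN.<Name>` (in the
namespace `AS.LN`), with the used statements as hypotheses.  `W1a`, `W2a`, `W1b`, `N1`, `N2` are the statements of
`AS/SpecMV`, `SpecLG`, `SpecLG2`; the statements M1 … N3 are proved (`okM8`, … in `AS/AllM`).
Convention for classes on `It u m`, `Xs u m`: `H (PX E3) ∅ n (It u m)`, `H (Pm E4) ∅ n (Xs u m)`.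
-/

set_option autoImplicit false

namespace AS

namespace LN

open R3

/-- **Fi** (80 lines).  The two projections of the total space.
Proof.  `It u m` is compact: closed in `S2 ×ˢ S` (compact), as the set where the two functions
`q ↦ u q.2`, `q ↦ inner ℝ q.1 (m q.2)`, continuous on `S2 ×ˢ S`, satisfy `≤` (`IsClosed` of
`{q ∈ S2 ×ˢ S | f q ≤ g q}`: for instance `ContinuousOn.preimage_isClosed_of_isClosed` for `g - f` and `Set.Ici 0`).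
Invariance: `ivS_PX`, `ue`, `me`, `neg_mem_S`.  Free: `fr_PX`.  `Xs u m` is compact, invariant in the same way.
`Fib`: `fb = ⟨okE, OkD.empty _, cont, eqv⟩` with `eqv_fst`, `eqv_snd`; `okS`: `S2` with the group `⊥` (`IvS.bot`, `Fr.bot`,
`isCompact_sphere`), `Xs u m` with `Pm E4` (`Cs.ok`); `maps` for `Prod.snd`: `u x ≤ ⟪t, m x⟫ ≤ ‖t‖ ‖m x‖ = ‖m x‖`
(`real_inner_le_norm`).  `Quo`: `K = ⊥`; `free`: `g = ngX`, `-x ≠ x` on `S`. -/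
def Fi : Prop := ∀ (u : E4 → ℝ) (m : E4 → E3), Dat u m →
  Cs (Pm E4) (Xs u m) ∧ Fib (PX E3) ∅ (It u m) ⊥ ∅ S2 Prod.fst ∧
  Fib (PX E3) ∅ (It u m) (Pm E4) ∅ (Xs u m) Prod.snd ∧
  Quo (PX E3) ⊥ (It u m) (Pm E4) Prod.snd

/-- **Sl** (90 lines; uses nothing).  Slices.
Proof.  The maps `x ↦ (t, x)` and `Prod.snd` between `F` and `{t} ×ˢ F` are inverse to each other, isometric and
equivariant (`Pm E4` and `PX E3`), so `pull` of them are inverse to each other (`pull_pull`, `pull_congr` with the identity on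
the sets, and `res_self` or a direct computation with `pull_cl`; `pull (fun x => x) _ n x = x`).  `pull` maps `one` to `one`
(`pull_cl`, `cl` of the constant function).  Acy and Bas2 are transported by the bijection.  Second part: `F ⊆ E3`, `p : E4`,
trivial groups, the maps `t ↦ (t, p)` and `Prod.fst`. -/
def Sl : Prop :=
  (∀ (t : E3) (F : Set E4), IvS (Pm E4) F → Acy (Pm E4) F → Acy (PX E3) ({t} ×ˢ F)) ∧
  (∀ (t : E3) (F : Set E4) (b : H (Pm E4) ∅ 1 F), IvS (Pm E4) F → Bas2 (Pm E4) F 1 b →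
    ∀ h : Adm (PX E3) ∅ ({t} ×ˢ F) (Pm E4) ∅ F Prod.snd,
      Bas2 (PX E3) ({t} ×ˢ F) 1 (pull Prod.snd h 1 b)) ∧
  (∀ (p : E4) (F : Set E3), Acy (⊥ : Subgroup (E3 ≃ᵢ E3)) F →
    Acy (⊥ : Subgroup ((E3 × E4) ≃ᵢ (E3 × E4))) (F ×ˢ {p}))

/-- **CapE** (70 lines; uses `N1`, `N2`, and the file `AS/HC.lean`).  Closed caps of the two-sphere are acyclic.
Proof.  `acy_of_contractible` in `AS/HC.lean` with the centre `p = ‖v‖⁻¹ • v` and the contraction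
`F τ t = ‖w‖⁻¹ • w`, `w = (1 - τ) • t + τ • p`.  `p ∈ S2`, `⟪p, v⟫ = ‖v‖ ≥ c`.  For `t` in the cap: `⟪t, v⟫ ≥ c > 0`, so
`⟪w, v⟫ ≥ c > 0`, `w ≠ 0`, `‖w‖ ≤ 1`, `⟪F τ t, v⟫ = ⟪w, v⟫ / ‖w‖ ≥ c`.  `F 0 t = t`, `F 1 t = p`.  Compact: closed
in the sphere. -/
def CapE : Prop := ∀ (v : E3) (c : ℝ), 0 < c → c ≤ ‖v‖ →
  Acy (⊥ : Subgroup (E3 ≃ᵢ E3)) {t | t ∈ S2 ∧ c ≤ inner ℝ t v}

/-- **XH** (120 lines; uses `Fi`, `Sl`, `CapE`, `W1a`, `W1b`).  The second cohomology of `Xs u m` if `u > 0`.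
Proof.  On `Xs u m` we have `‖m x‖ ≥ u x > 0`, so `m x ≠ 0`.
(1) `W1a` for `Prod.fst`, `S = S2`, `D' = ∅`: `ov (It u m) Prod.fst {t} = {t} ×ˢ Ht u m t` is acyclic (`Sl`).  So
`pull Prod.fst _ 2 : H ⊥ ∅ 2 S2 → H (PX E3) ∅ 2 (ov (It u m) Prod.fst S2)` is bijective, and `ov (It u m) Prod.fst S2 = It u m`.
(2) `W1b` for `Prod.snd`, `K = ⊥`, `S = Xs u m`, `C = Xs u m`: `ov (It u m) Prod.snd {p} = {t | t ∈ S2 ∧ u p ≤ ⟪t, m p⟫} ×ˢ {p}`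
for `p ∈ Xs u m` (`CapE`, `Sl`).  So `pull Prod.snd` is bijective on `H (Pm E4) ∅ 2 (Xs u m)`.
(3) The section `σ x = (th m x, x)`: `Adm (PX E3)`-version: `Adm (Pm E4) ∅ (Xs u m) (PX E3) ∅ (It u m) σ` (`th_mem`,
`inner_th`; uniform continuity: `IsCompact.uniformContinuousOn_of_continuous` as in `Fib.adm`; equivariance: `th m (-x) = th m x`).
`Prod.snd ∘ σ = id`, `Prod.fst ∘ σ = th m`.  For `y ∈ H (Pm E4) ∅ 2 (Xs u m)`: `pull Prod.snd y = pull Prod.fst y'` with `y' = 0` or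
`y' = s`, so `y = pull σ (pull Prod.snd y) = pull (th m) y'`.  There is `y` with `pull Prod.snd y = pull Prod.fst s ≠ 0`, and this
`y` is `pull (th m) s`, so it is not `0`. -/
def XH : Prop := ∀ (u : E4 → ℝ) (m : E4 → E3), Dat u m → (∀ x ∈ S, 0 < u x) →
  (∀ t ∈ S2, Acy (Pm E4) (Ht u m t)) → ∀ s : H (⊥ : Subgroup (E3 ≃ᵢ E3)) ∅ 2 S2, Gen2 s →
  ∀ h : Adm (Pm E4) ∅ (Xs u m) ⊥ ∅ S2 (th m),
    pull (th m) h 2 s ≠ 0 ∧ ∀ y : H (Pm E4) ∅ 2 (Xs u m), y = 0 ∨ y = pull (th m) h 2 s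

/-- **ThA** (30 lines).  The map `th m` on closed sets where `m ≠ 0`.
Proof.  `th_mem`; `th m` is continuous on `A` (`ContinuousOn.smul`, `inv₀`), hence uniformly continuous on the compact set `A`
(as in `Fib.adm`); `th m (-x) = th m x`. -/
def ThA : Prop := ∀ (u : E4 → ℝ) (m : E4 → E3) (A : Set E4), Dat u m → Cs (Pm E4) A →
  (∀ x ∈ A, m x ≠ 0) → Adm (Pm E4) ∅ A ⊥ ∅ S2 (th m)

/-- **XG** (150 lines; uses `Fi`, `Sl`, `W2a`).  A restriction which is zero.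
Proof.  Write `Y = Xs u m`, `I = It u m`, `y ∈ H²(Y)`.
(1) Let `b = pull Prod.snd _ 1 (ap 1 Y _)` on `I`.  `W2a` for `Prod.fst`, `d = 1`, `S = S2`, `D' = ∅`: the fibre is
`{t} ×ˢ Ht u m t`, the restriction of `b` to it is `pull Prod.snd (ap 1 (Ht u m t))` (`res_pull`, `pull_pull`, `res_ap`; write
`ap 1 (Ht u m t)` as the restriction of `ap 1 Y`), `Sl` gives `Bas2`.  With `C = S2`, `m = 1`: every class of degree `2` on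
`I` is `pull Prod.fst z₁ + cupH ∅ 2 (pull Prod.fst z₂) b`, `z₂ ∈ H ⊥ ∅ 1 S2`, so `z₂ = 0` (`Gen2`), so it is `pull Prod.fst z₁`
(`cupH_zero_left`), `z₁ ∈ {0, s}`.
(2) `j t = (t, z₁)` maps `S2` to `I` (`u z₁ ≤ -‖m z₁‖ ≤ ⟪t, m z₁⟫`), `Adm ⊥ ∅ S2 (PX E3) ∅ I j`, `Prod.fst ∘ j = id`,
`Prod.snd ∘ j` is constant.  `pull Prod.snd y = pull Prod.fst y'`, `y' ∈ {0, s}`; `y' = pull j (pull Prod.fst y') =
pull j (pull Prod.snd y) = pull (fun _ => z₁) y`, which factors through `H (Pm E4) ∅ 2 {z₁, -z₁}` or `H ⊥ ∅ 2 {z₁}` (`N1`,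
finite set), so it is `0`.  So `pull Prod.snd y = 0`.
(3) `σ x = (th m x, x)` maps `X'` to `I` (`inner_th`); `res y = pull σ (pull Prod.snd y) = 0`. -/
def XG : Prop := ∀ (u : E4 → ℝ) (m : E4 → E3), Dat u m →
  (∀ t ∈ S2, ∀ h0, Bas2 (Pm E4) (Ht u m t) 1 (ap 1 (Ht u m t) h0)) →
  ∀ s : H (⊥ : Subgroup (E3 ≃ᵢ E3)) ∅ 2 S2, Gen2 s →
  ∀ z₁ ∈ S, u z₁ ≤ -‖m z₁‖ →
  ∀ X' : Set E4, Cs (Pm E4) X' → (∀ x ∈ X', m x ≠ 0) → ∀ (hX : X' ⊆ Xs u m)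
    (y : H (Pm E4) ∅ 2 (Xs u m)), res hX 2 y = 0

/-- **Hf** (80 lines; uses `S_Pow`, `S_H3`, `S_Odd`, `S_Dic`, `S_One`, `N2`).  Half-spaces.
Proof.  `ap 0 X = one` (`cl` of the function `apc 0`, which is `1` on lists of length one without `0`; if `AS/Pm` has no such lemma:
`cl_eq_cl` and `Bnd_of_Z0`).  (i) `H⁰ = {0, one}`, `one ≠ 0` (`N2`), `H^(n+1) = {0, ap (n+1)}`, `ap (n+1) = 0` by `S_Pow` with `i = 1`.
(ii) `X ≠ S` (it misses the nonempty set `K`; if `K` is empty then `ap 1 K = 0` by `H_empty`).  `ap 1 X ≠ 0` because its restriction to `L` is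
`ap 1 L ≠ 0`.  `H² = 0`: `S_Dic`: if `Evn X` with `W` then `ap 1 K = 0` by `S_One` with the closed set `A = {y ∈ K | -y ∉ W}` (for `y ∈ K`,
`y ∉ X`, so `-y ∉ W ↔ y ∈ W`): contradiction; so `S \ X` is preconnected and `S_Odd` applies.  `H^n = 0` for `n ≥ 3`: `S_H3`.  `H⁰`: `X` is not empty as
it contains `L` and `ap 1 L ≠ 0`. -/
def Hf : Prop :=
  (∀ X : Set E4, Cs (Pm E4) X → X.Nonempty → Gen X → (∀ h0, ap 1 X h0 = 0) → Acy (Pm E4) X) ∧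
  ∀ X K L : Set E4, Cs (Pm E4) X → Cs (Pm E4) K → Cs (Pm E4) L → Gen X → Cmod (Pm E4) X →
    K ∩ X = ∅ → L ⊆ X → (∀ h0, ap 1 K h0 ≠ 0) → (∀ h0, ap 1 L h0 ≠ 0) →
    ∀ h0, Bas2 (Pm E4) X 1 (ap 1 X h0)

/-- **Cu** (150 lines; uses `S_Rm`, `S_H3`, `S_RP`).  Cuts.
Proof.  `MVs (Pm E4) ∅ A B X S` for a cut (`Cs.ok`).  (1) if there is no cut then `Cmod (Pm E4) X`, `S_Rm` gives `x` on `S` with `res x = s`,
but `res x = 0`.  (2) `ap 3 S` restricts to `0` on `A` and `B` (`S_H3`), so `ap 3 S = del u` (`M8`), `u = s` (`u ≠ 0`, `M6`); for `c ∈ H²(A)`: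
`del (res c) = 0` (`M9`), so `res c ≠ s`, `res c = 0`; the same for `B`.  (3) Suppose `A₁ ≠ A`, `A₂ ≠ A`: then `(A₁, A₂)` is a cut of `A` and there is `c ∈ H²(A)` with
`del c = ap 3 S` (`M8` for `A₁`, `A₂`).  `res c = 0` on `X` by (2), so `M10` for `(A, B)` and `c`, `0` gives `b ∈ H²(S)` with `res b = c`;
`c = res (res b)` from `A₁`, `del c = 0` (`M9`): contradiction to `S_RP`.  (4) `(B, A)` is a cut, too.  `z ∈ S \ A`, so `z ∈ B`; `z ∈ B'`.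
(3) for `A ∪ A'`, `A ∪ B'` (union `S`, intersection `A ∪ X' = A`): `A ∪ A' = A` or `A ∪ B' = A`; the second gives `z ∈ A`.  So `A' ⊆ A`.
(3) for `B ∪ A'`, `B ∪ B'`: `B' ⊆ B`, or `A' ⊆ B`; in the second case `A' ⊆ A ∩ B = X` and `res s` to `A'` is a class whose restriction to `X'` is
`≠ 0`, contradiction to (2).  (5) `A⁺ = A ∪ Y`, `B⁺ = B ∪ Y` is a cut of `Y` (`z ∉ A⁺`, `z₀ ∉ B⁺`); `ap 3 S = del y` (`M8`, `S_H3`), by naturality (`M11`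
for the identity, `res`) `ap 3 S = res (del y) = del (res y) = del 0 = 0`. -/
def Cu : Prop :=
  (∀ (X : Set E4) (s : H (Pm E4) ∅ 2 X), Sx X s → ∃ A B, Cut X A B) ∧
  (∀ (X : Set E4) (s : H (Pm E4) ∅ 2 X) (A B : Set E4), Sx X s → Cut X A B →
    ∀ (h : X ⊆ A) (c : H (Pm E4) ∅ 2 A), res h 2 c = 0) ∧
  (∀ (X : Set E4) (s : H (Pm E4) ∅ 2 X) (A B A₁ A₂ : Set E4), Sx X s → Cut X A B →
    Cs (Pm E4) A₁ → Cs (Pm E4) A₂ → A₁ ∪ A₂ = S → A₁ ∩ A₂ = A → A₁ = A ∨ A₂ = A) ∧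
  (∀ (X X' : Set E4) (s : H (Pm E4) ∅ 2 X) (s' : H (Pm E4) ∅ 2 X') (A B A' B' : Set E4) (z : E4),
    Sx X s → Sx X' s' → (∀ h : X' ⊆ X, res h 2 s ≠ 0) → X' ⊆ X → Cut X A B → Cut X' A' B' →
    z ∈ S → z ∉ A → z ∉ A' → A' ⊆ A ∧ B' ⊆ B) ∧
  (∀ (X Y A B : Set E4) (z z₀ : E4), X ⊆ Y → Cs (Pm E4) Y →
    (∀ (h : X ⊆ Y) (y : H (Pm E4) ∅ 2 Y), res h 2 y = 0) → Cut X A B → z ∈ S → z ∉ A → z ∉ Y →
    z₀ ∈ S → z₀ ∉ B → z₀ ∉ Y → False)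

/-- **Mu** (60 lines).  Uniform negativity.
Proof.  The function `φ (t, x) = h x - ε ⟪t, m x⟫` is continuous on the compact set `S2 ×ˢ S`.  For every `t₀ ∈ S2` there is `x₀ ∈ S` with
`φ (t₀, x₀) < 0`; then `φ (t, x₀) < φ (t₀, x₀) / 2` for `t` near `t₀` (`φ (·, x₀)` is continuous on all of `E3`).  Compactness of `S2`. -/
def Mu : Prop := ∀ (h : E4 → ℝ) (m : E4 → E3) (z : E4), HN h m z → ∀ ε > 0, ∃ μ > 0, ∀ t ∈ S2,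
  ∃ x ∈ S, h x + μ ≤ ε * inner ℝ t (m x)

/-- **Sep** (200 lines; uses `Fi`, `XH`, `ThA`, `Hf`, `Cu`, `Mu`).  Separation of `z` and `z₀`.
Proof.  See the note (steps (1), (4)-(7)).  `M₀ > 0` a bound of `‖m‖` on `S`, `d` from `evn`, `ε₀ = d / M₀`; for `ε > 0` let `μ ε` be as in
`Mu`.  Call `(ε, η)` admissible if `0 < ε ≤ ε₀`, `0 < η ≤ μ ε`; `X_i = Xs (sh h ε η) m`.
(1) `Ht (sh h ε η) m t = {h x + η ≤ ε ⟪t, m x⟫}` is contained in `{h ≤ d}`, not empty (`Mu`), `Gen` (`HN.gen`), `ap 1 = 0` (`evn`, `res_ap`), so acyclic (`Hf`), and `XH` applies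
(`sh h ε η > 0`): `Sx X_i s_i`, `s_i = pull (th m) s`; `zero`: `Gen S` (`S_RP`), `ap 2 S` restricts to `ap 2 X_i = 0` (`S_Pow`, `X_i ⊆ {h ≤ d}`).  `res s_i = s_j ≠ 0` for
`X_j ⊆ X_i` (`res_pull`).
(4) If `(A, B)` is a cut of `X_i` then there is `p ∈ A` with `m p = 0`: otherwise `ThA` on `A`, the class `pull (th m) s` on `A` restricts to
`s_i ≠ 0`, contradiction to `Cu` (2).  `p ∉ X_i` (`‖m p‖ = 0 < sh …`), so `p ∉ B`.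
(6) `z ∉ X_i`; cuts exist (`Cu` (1)); after exchanging `A` and `B` we have `z ∉ A`.  Let `i₁ = (ε₁, η₁)` be one admissible pair, `(A₁, B₁)` a cut of `X_{i₁}` with
`z ∉ A₁`, `p ∈ A₁` with `m p = 0`; `p ≠ z, -z` (`A₁` is symmetric), so `h p > 0` (`inj`).  Claim: for every admissible `i' = (ε', η')` with `ε' ≤ ε₁` and every cut `(A', B')` of
`X_{i'}` with `z ∉ A'`: `p ∉ B'`.  Let `i₂ = (ε₁, min η₁ (η' ε₁ / ε'))`, `(A₂, B₂)` a cut with `z ∉ A₂`.  `X_{i₁} ⊆ X_{i₂}` and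
`X_{i'} ⊆ X_{i₂}` (`h x + η' ≤ ε' ‖m x‖` implies `h x + η₂ ≤ (ε₁ / ε') (h x + η') ≤ ε₁ ‖m x‖`, as `ε₁ / ε' ≥ 1`, `h ≥ 0`).  `Cu` (4): `A₁ ⊆ A₂`, `B' ⊆ B₂`;
`p ∈ A₂`, `p ∉ X_{i₂} = A₂ ∩ B₂`, so `p ∉ B₂`, `p ∉ B'`.
(7) `h z₀ > 0`, `c = min (h p) (h z₀)`, `ε' M₀ < c`, `ε' ≤ ε₁`, `ε' ≤ ε₀`: `K = {x ∈ S | c ≤ h x}` does not meet `X_{i'}` (`h x + η' > c > ε' ‖m x‖`).  `K` is the disjoint union of the closed symmetric
sets `K ∩ A'`, `K ∩ B'`; since `H⁰(K) = {0, one}` (`Gen K`, `con`) one of them is empty (`M10` gives a class which is `one` on the first and `0` on the second; `N2`: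
`one ≠ 0` on nonempty sets); `p ∈ K ∩ A'` (`p ∉ B'`, `A' ∪ B' = S`), so `K ∩ B' = ∅` and `z₀ ∉ B'`. -/
def Sep : Prop := ∀ (h : E4 → ℝ) (m : E4 → E3) (z : E4), HN h m z → ∀ z₀ ∈ S, 0 < h z₀ →
  ∃ ε₂ > 0, ∀ ε, 0 < ε → ε < ε₂ → ∃ η₂ > 0, ∀ η, 0 < η → η < η₂ →
    ∃ A B, Cut (Xs (sh h ε η) m) A B ∧ z ∉ A ∧ z₀ ∉ B

/-- **LemN** (120 lines; uses `Fi`, `XG`, `Hf`, `Cu`, `Sep`).  Lemma N.
Proof.  Step (8) of the note.  `K₊ = {x ∈ S | d ≤ g x}`, `K₋ = {x ∈ S | g x ≤ -d}` are not empty (`ap 1 ≠ 0`); `z₀ ∈ K₊`, `z₁ ∈ K₋`; `h z₀ ≥ g z₀ > 0`.  `M₀ > 0` a bound of `‖m‖` on `S`;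
`ε < ε₂` with `ε M₀ < d / 2`, `η < η₂`, `η < d / 2`.  `u = sh g ε η`, `Y = Xs u m`, `X = Xs (sh h ε η) m ⊆ Y` (`g ≤ h`).  `Ht u m t` contains `K₋` (`g x + η ≤ -d + d/2 = -d/2 ≤ ε ⟪t, m x⟫`) and does not
meet `K₊`: `Bas2` by `Hf`.  `u z₁ ≤ -‖m z₁‖`.  `XG` with `X' = X` (`m ≠ 0` on `X`): the restriction `H²(Y) → H²(X)` is `0`.  `z ∉ Y` (`g z + η = η > 0 = ‖m z‖`), `z₀ ∉ Y`
(`g z₀ + η > d > ε ‖m z₀‖`).  `Cu` (5). -/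
def LemN : Prop := ∀ (h g : E4 → ℝ) (m : E4 → E3) (z : E4), HN h m z → Dat g m → g z = 0 →
  (∀ x ∈ S, g x ≤ h x) →
  (∀ ε > 0, ∀ η > 0, ∀ t ∈ S2, Gen (Ht (sh g ε η) m t) ∧ Cmod (Pm E4) (Ht (sh g ε η) m t)) →
  ∀ d > 0, (∀ h0, ap 1 {x | x ∈ S ∧ d ≤ g x} h0 ≠ 0) → (∀ h0, ap 1 {x | x ∈ S ∧ g x ≤ -d} h0 ≠ 0) →
  (∃ s : H (⊥ : Subgroup (E3 ≃ᵢ E3)) ∅ 2 S2, Gen2 s) → False

end LN

end AS
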